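import Pool.Agent.Run7.h641.AP.Iface

/-!
# Piece FA of helper641's project AP: finite Fourier analysis (helper903)
-/

set_option autoImplicit false
set_option linter.unusedSectionVars false
set_option linter.style.haveILetI false

open Finset
open scoped BigOperators ComplexConjugate

namespace Pool.Agent.Run7.h641.AP

namespace FA

/-- Parseval -/
theorem parseval {α : Type} [AddCommGroup α] [Fintype α] (f : α → ℂ) :
    ∑ ψ : AddChar α ℂ, ‖∑ a, ψ a * f a‖ ^ 2 = Fintype.card α * ∑ a, ‖f a‖ ^ 2 := by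
  classical
  have key : ∑ ψ : AddChar α ℂ, (∑ a, ψ a * f a) * conj (∑ b, ψ b * f b) =
      (Fintype.card α : ℂ) * ∑ a, f a * conj (f a) := by
    have h1 : ∀ ψ : AddChar α ℂ, (∑ a, ψ a * f a) * conj (∑ b, ψ b * f b) =
        ∑ a, ∑ b, ψ (a - b) * (f a * conj (f b)) := by
      intro ψ
      rw [map_sum, Finset.sum_mul_sum]
      refine Finset.sum_congr rfl fun a _ => Finset.sum_congr rfl fun b _ => ?_
      rw [map_mul, ← AddChar.map_neg_eq_conj, sub_eq_add_neg, AddChar.map_add_eq_mul]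
      ring
    simp_rw [h1]
    rw [Finset.sum_comm]
    have h2 : ∀ a : α, ∑ ψ : AddChar α ℂ, ∑ b, ψ (a - b) * (f a * conj (f b)) =
        (Fintype.card α : ℂ) * (f a * conj (f a)) := by
      intro a
      rw [Finset.sum_comm]
      have h3 : ∀ b : α, ∑ ψ : AddChar α ℂ, ψ (a - b) * (f a * conj (f b)) =
          if b = a then (Fintype.card α : ℂ) * (f a * conj (f a)) else 0 := by
        intro b
        rw [← Finset.sum_mul, AddChar.sum_apply_eq_ite]
        by_cases hb : b = a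
        · subst hb; simp
        · rw [if_neg hb, if_neg (by rw [sub_eq_zero]; exact fun h => hb h.symm), zero_mul]
      simp_rw [h3]
      rw [Finset.sum_ite_eq' Finset.univ a]
      simp
    simp_rw [h2]
    rw [← Finset.mul_sum]
  have e : ∀ z : ℂ, z * conj z = ((‖z‖ ^ 2 : ℝ) : ℂ) := by
    intro z
    rw [Complex.mul_conj, Complex.normSq_eq_norm_sq]
  simp_rw [e] at key
  exact_mod_cast key

theorem t_FA : S_FA := by
  classical
  intro A _ _ g w hw hχ
  -- characters of `Additive A`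
  let toM : AddChar (Additive A) ℂ → (A →* ℂ) := fun ψ =>
    { toFun := fun a => ψ (Additive.ofMul a)
      map_one' := by rw [ofMul_one, AddChar.map_zero_eq_one]
      map_mul' := fun a b => by rw [ofMul_mul, AddChar.map_add_eq_mul] }
  let R : A → ℝ := fun c => ∑ t, g (c * t) * g t
  let hat : AddChar (Additive A) ℂ → ℂ := fun ψ => ∑ a : A, ψ (Additive.ofMul a) * (g a : ℂ)
  have hhat : ∀ ψ, ‖hat ψ‖ ≤ w * Fintype.card A := fun ψ => hχ (toM ψ)
  have hR : ∀ ψ : AddChar (Additive A) ℂ, ∑ c : A, ψ (Additive.ofMul c) * ((R c : ℝ) : ℂ) =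
      ((‖hat ψ‖ ^ 2 : ℝ) : ℂ) := by
    intro ψ
    have h1 : ((‖hat ψ‖ ^ 2 : ℝ) : ℂ) = hat ψ * conj (hat ψ) := by
      rw [Complex.mul_conj, Complex.normSq_eq_norm_sq]
    rw [h1]
    simp only [hat, R]
    rw [map_sum, Finset.sum_mul_sum]
    have h2 : ∀ c : A, ψ (Additive.ofMul c) * ((∑ t, g (c * t) * g t : ℝ) : ℂ) =
        ∑ t, ψ (Additive.ofMul c) * ((g (c * t) : ℂ) * (g t : ℂ)) := by
      intro c
      push_cast
      rw [Finset.mul_sum]
    simp_rw [h2]
    rw [Finset.sum_comm]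
    rw [Finset.sum_comm (s := Finset.univ) (t := Finset.univ)
      (f := fun (a b : A) => ψ (Additive.ofMul a) * (g a : ℂ) * conj (ψ (Additive.ofMul b) * (g b : ℂ)))]
    refine Finset.sum_congr rfl fun t _ => ?_
    rw [← Equiv.sum_comp (Equiv.mulRight t)
      (fun a => ψ (Additive.ofMul a) * (g a : ℂ) * conj (ψ (Additive.ofMul t) * (g t : ℂ)))]
    refine Finset.sum_congr rfl fun c _ => ?_
    rw [Equiv.coe_mulRight, ofMul_mul, AddChar.map_add_eq_mul, map_mul, Complex.conj_ofReal,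
      ← AddChar.map_neg_eq_conj]
    have h3 : ψ (Additive.ofMul t) * ψ (-Additive.ofMul t) = 1 := by
      rw [← AddChar.map_add_eq_mul, add_neg_cancel, AddChar.map_zero_eq_one]
    calc ψ (Additive.ofMul c) * ((g (c * t) : ℂ) * (g t : ℂ))
        = ψ (Additive.ofMul c) * (ψ (Additive.ofMul t) * ψ (-Additive.ofMul t)) *
            ((g (c * t) : ℂ) * (g t : ℂ)) := by rw [h3, mul_one]
      _ = _ := by ring
  have p1 := parseval (α := Additive A) (fun c => ((R c.toMul : ℝ) : ℂ))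
  have p2 := parseval (α := Additive A) (fun c => ((g c.toMul : ℝ) : ℂ))
  have q1 : ∀ ψ : AddChar (Additive A) ℂ, ‖∑ a : Additive A, ψ a * ((R a.toMul : ℝ) : ℂ)‖ ^ 2 =
      ‖hat ψ‖ ^ 4 := by
    intro ψ
    have h1 : ∑ a : Additive A, ψ a * ((R a.toMul : ℝ) : ℂ) = ((‖hat ψ‖ ^ 2 : ℝ) : ℂ) := by
      rw [← hR ψ]
      exact (Equiv.sum_comp Additive.ofMul (fun a : Additive A => ψ a * ((R a.toMul : ℝ) : ℂ))).symm
    rw [h1, Complex.norm_real, Real.norm_eq_abs, abs_of_nonneg (by positivity)]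
    ring
  have q2 : ∀ ψ : AddChar (Additive A) ℂ, ‖∑ a : Additive A, ψ a * ((g a.toMul : ℝ) : ℂ)‖ ^ 2 =
      ‖hat ψ‖ ^ 2 := by
    intro ψ
    have h1 : ∑ a : Additive A, ψ a * ((g a.toMul : ℝ) : ℂ) = hat ψ :=
      (Equiv.sum_comp Additive.ofMul (fun a : Additive A => ψ a * ((g a.toMul : ℝ) : ℂ))).symm
    rw [h1]
  simp_rw [q1] at p1
  simp_rw [q2] at p2
  have r1 : ∑ a : Additive A, ‖((R a.toMul : ℝ) : ℂ)‖ ^ 2 = ∑ c, R c ^ 2 := by
    rw [← Equiv.sum_comp Additive.ofMul (fun a : Additive A => ‖((R a.toMul : ℝ) : ℂ)‖ ^ 2)]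
    refine Finset.sum_congr rfl fun c _ => ?_
    simp only [toMul_ofMul]
    rw [Complex.norm_real, Real.norm_eq_abs, sq_abs]
  have r2 : ∑ a : Additive A, ‖((g a.toMul : ℝ) : ℂ)‖ ^ 2 = ∑ c, g c ^ 2 := by
    rw [← Equiv.sum_comp Additive.ofMul (fun a : Additive A => ‖((g a.toMul : ℝ) : ℂ)‖ ^ 2)]
    refine Finset.sum_congr rfl fun c _ => ?_
    simp only [toMul_ofMul]
    rw [Complex.norm_real, Real.norm_eq_abs, sq_abs]
  rw [r1] at p1
  rw [r2] at p2
  have hc : (Fintype.card (Additive A) : ℝ) = Fintype.card A := by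
    rw [Fintype.card_additive]
  rw [hc] at p1 p2
  have hpos : (0 : ℝ) < Fintype.card A := by exact_mod_cast Fintype.card_pos
  have main : ∑ ψ : AddChar (Additive A) ℂ, ‖hat ψ‖ ^ 4 ≤
      (w * Fintype.card A) ^ 2 * ∑ ψ : AddChar (Additive A) ℂ, ‖hat ψ‖ ^ 2 := by
    rw [Finset.mul_sum]
    refine Finset.sum_le_sum fun ψ _ => ?_
    have h1 := hhat ψ
    have h2 : ‖hat ψ‖ ^ 2 ≤ (w * Fintype.card A) ^ 2 := by
      apply pow_le_pow_left₀ (norm_nonneg _) h1
    calc ‖hat ψ‖ ^ 4 = ‖hat ψ‖ ^ 2 * ‖hat ψ‖ ^ 2 := by ring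
      _ ≤ _ := mul_le_mul_of_nonneg_right h2 (by positivity)
  rw [p1, p2] at main
  have h5 : (Fintype.card A : ℝ) * ∑ c, R c ^ 2 ≤
      Fintype.card A * ((w * Fintype.card A) ^ 2 * ∑ c, g c ^ 2) := by
    calc _ ≤ _ := main
      _ = _ := by ring
  exact le_of_mul_le_mul_left h5 hpos

end FA
end Pool.Agent.Run7.h641.AP
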