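import Pool.Agent.Run7.h641.AP.Iface

/-!
# Piece FB of helper641's project AP: one coordinate (helper903)
-/

set_option autoImplicit false
set_option linter.unusedSectionVars false
set_option linter.style.haveILetI false

open Finset
open scoped BigOperators ComplexConjugate

namespace Pool.Agent.Run7.h641.AP

namespace FB

/-- sums over fibres of a homomorphism to a subgroup `A` -/
theorem fibre {H P : Type} [Group H] [Fintype H] [Group P] (A : Subgroup P) [Fintype A]
    (φ : H →* P) (hA : ∀ h, φ h ∈ A) (κ : ℝ) (hκ : (Nat.card A : ℝ) ≤ κ * Nat.card φ.range)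
    (f : A → ℝ) (hf : ∀ a, 0 ≤ f a) (C : ℝ) (hC : ∑ a, f a ≤ Fintype.card A * C) (hC0 : 0 ≤ C) :
    ∑ h : H, f ⟨φ h, hA h⟩ ≤ κ * Fintype.card H * C := by
  classical
  let ψ : H →* A := φ.codRestrict A hA
  have hψ : ∀ h, ψ h = ⟨φ h, hA h⟩ := fun h => rfl
  let m : ℕ := (univ.filter fun h : H => ψ h = 1).card
  have hm : ∀ c ∈ univ.image ψ, (univ.filter fun h : H => ψ h = c).card = m := by
    intro c hc
    obtain ⟨h, -, rfl⟩ := Finset.mem_image.1 hc
    exact MonoidHom.card_fiber_eq_of_mem_range ψ ⟨h, rfl⟩ ⟨1, map_one ψ⟩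
  have h1 : ∑ h : H, f (ψ h) = m * ∑ c ∈ univ.image ψ, f c := by
    rw [← Finset.sum_fiberwise_of_maps_to (s := univ) (t := univ.image ψ) (g := ψ)
      (fun h _ => Finset.mem_image_of_mem _ (mem_univ _)), Finset.mul_sum]
    refine Finset.sum_congr rfl fun c hc => ?_
    rw [Finset.sum_congr rfl (g := fun _ => f c) (fun h hh => by rw [(Finset.mem_filter.1 hh).2]),
      Finset.sum_const, hm c hc, nsmul_eq_mul]
  have h2 : Fintype.card H = m * (univ.image ψ).card := by
    rw [← Finset.card_univ, Finset.card_eq_sum_card_image ψ univ, Finset.sum_congr rfl hm,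
      Finset.sum_const, smul_eq_mul, mul_comm]
  have h3 : (univ.image ψ).card = Nat.card φ.range := by
    have e1 : Nat.card φ.range = Nat.card (Set.range φ) := rfl
    have e2 : Nat.card (Set.range φ) = (univ.image φ).card := by
      rw [← Set.ncard_coe_finset, Finset.coe_image, Finset.coe_univ, Set.image_univ]
      rfl
    rw [e1, e2]
    have e3 : univ.image φ = (univ.image ψ).image (fun a : A => (a : P)) := by
      rw [Finset.image_image]
      rfl
    rw [e3, Finset.card_image_of_injective _ Subtype.val_injective]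
  have h4 : ∑ c ∈ univ.image ψ, f c ≤ ∑ c, f c :=
    Finset.sum_le_sum_of_subset_of_nonneg (Finset.subset_univ _) (fun a _ _ => hf a)
  have h5 : (m : ℝ) * Fintype.card A ≤ κ * Fintype.card H := by
    rw [h2, h3]
    push_cast
    have := mul_le_mul_of_nonneg_left hκ (Nat.cast_nonneg (α := ℝ) m)
    rw [Nat.card_eq_fintype_card] at this
    linarith
  calc ∑ h : H, f ⟨φ h, hA h⟩ = m * ∑ c ∈ univ.image ψ, f c := h1
    _ ≤ m * (Fintype.card A * C) := by
        apply mul_le_mul_of_nonneg_left (h4.trans hC) (Nat.cast_nonneg _)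
    _ = (m * Fintype.card A) * C := by ring
    _ ≤ κ * Fintype.card H * C := mul_le_mul_of_nonneg_right h5 hC0

theorem t_FB : S_FB := by
  classical
  intro hFA S H _ _ _ φ A κ M w g hw hκ hM hcomm hA hcard hg hχ
  haveI : Finite A := inferInstance
  letI fA : Fintype A := Fintype.ofFinite A
  letI cg : CommGroup A := { (inferInstance : Group A) with
    mul_comm := fun a b => Subtype.ext (hcomm a a.2 b b.2) }
  have hpos : (0 : ℝ) < Fintype.card A := by exact_mod_cast Fintype.card_pos
  let R : S → A → ℝ := fun x c => ∑ t : A, g ((c * t).1 x) * g (t.1 x)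
  -- one point
  have hR : ∀ x, ∑ c, |R x c| ≤ Fintype.card A * (w * Fintype.card A * M) := by
    intro x
    have h1 := hFA A (fun a => g (a.1 x)) w hw (by
      intro χ
      have := hχ x χ
      rw [finsum_eq_sum_of_fintype, Nat.card_eq_fintype_card] at this
      exact this)
    have h2 : ∑ t : A, g (t.1 x) ^ 2 ≤ Fintype.card A * M ^ 2 := by
      calc ∑ t : A, g (t.1 x) ^ 2 ≤ ∑ _t : A, M ^ 2 := by
            refine Finset.sum_le_sum fun t _ => ?_
            rw [← sq_abs]
            exact pow_le_pow_left₀ (abs_nonneg _) (hg _) 2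
        _ = _ := by rw [Finset.sum_const, nsmul_eq_mul, Finset.card_univ]
    have h3 : (∑ c, |R x c|) ^ 2 ≤ Fintype.card A * ∑ c, |R x c| ^ 2 := by
      have := sq_sum_le_card_mul_sum_sq (s := (univ : Finset A)) (f := fun c => |R x c|)
      rwa [Finset.card_univ] at this
    have h4 : ∑ c, |R x c| ^ 2 ≤ (w * Fintype.card A) ^ 2 * (Fintype.card A * M ^ 2) := by
      simp_rw [sq_abs]
      exact h1.trans (mul_le_mul_of_nonneg_left h2 (by positivity))
    have h5 : (∑ c, |R x c|) ^ 2 ≤ (Fintype.card A * (w * Fintype.card A * M)) ^ 2 := by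
      calc _ ≤ _ := h3
        _ ≤ Fintype.card A * ((w * Fintype.card A) ^ 2 * (Fintype.card A * M ^ 2)) :=
            mul_le_mul_of_nonneg_left h4 hpos.le
        _ = _ := by ring
    exact le_of_abs_le (abs_le_of_sq_le_sq h5 (by positivity))
  have hRh : ∀ x, ∑ h : H, |R x ⟨φ h, hA h⟩| ≤ κ * Fintype.card H * (w * Fintype.card A * M) :=
    fun x => fibre A φ hA κ hcard (fun a => |R x a|) (fun a => abs_nonneg _) _ (hR x)
      (by positivity)
  -- averaging
  have hav : ∀ h : H, (Fintype.card A : ℝ) * ∑ x, g (φ h x) * g x = ∑ x, R x ⟨φ h, hA h⟩ := by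
    intro h
    simp only [R]
    rw [Finset.sum_comm]
    have h1 : ∀ t : A, ∑ x : S, g (((⟨φ h, hA h⟩ : A) * t).1 x) * g (t.1 x) =
        ∑ x, g (φ h x) * g x := by
      intro t
      rw [← Equiv.sum_comp (t.1) (fun x => g (φ h x) * g x)]
      rfl
    simp_rw [h1]
    rw [Finset.sum_const, nsmul_eq_mul, Finset.card_univ]
  have key : (Fintype.card A : ℝ) * ∑ h : H, |∑ x, g (φ h x) * g x| ≤
      Fintype.card A * (κ * w * M * Fintype.card H * Fintype.card S) := by
    calc (Fintype.card A : ℝ) * ∑ h : H, |∑ x, g (φ h x) * g x|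
        = ∑ h : H, |∑ x, R x ⟨φ h, hA h⟩| := by
          rw [Finset.mul_sum]
          refine Finset.sum_congr rfl fun h _ => ?_
          rw [← hav h, abs_mul, abs_of_pos hpos]
      _ ≤ ∑ h : H, ∑ x, |R x ⟨φ h, hA h⟩| :=
          Finset.sum_le_sum fun h _ => Finset.abs_sum_le_sum_abs _ _
      _ = ∑ x, ∑ h : H, |R x ⟨φ h, hA h⟩| := Finset.sum_comm
      _ ≤ ∑ _x : S, κ * Fintype.card H * (w * Fintype.card A * M) :=
          Finset.sum_le_sum fun x _ => hRh x
      _ = _ := by
          rw [Finset.sum_const, nsmul_eq_mul, Finset.card_univ]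
          ring
  exact le_of_mul_le_mul_left key hpos

end FB
end Pool.Agent.Run7.h641.AP
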