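import Pool.Agent.Run7.h641.AP.Iface

/-!
# Piece FC of helper641's project AP: products (helper903)
-/

set_option autoImplicit false
set_option linter.unusedSectionVars false
set_option linter.style.haveILetI false

open Finset
open scoped BigOperators ComplexConjugate

namespace Pool.Agent.Run7.h641.AP

namespace FC

section

variable {n : ℕ} {S : Fin n → Type} [∀ j, Fintype (S j)]

theorem sum_prod (F : ∀ j, S j → ℝ) : ∑ x : (∀ j, S j), ∏ j, F j (x j) = ∏ j, ∑ y, F j y := by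
  rw [Finset.prod_univ_sum, Fintype.piFinset_univ]

variable {H : Type} [Group H] [Fintype H] (ρ : ∀ j, H →* Equiv.Perm (S j)) (v : ∀ j, S j → ℝ)

/-- correlation -/
noncomputable def cor (j : Fin n) (k : H) : ℝ := ∑ y, v j (ρ j k y) * v j y

theorem cor_two (j : Fin n) (h h' : H) :
    ∑ y, v j (ρ j h y) * v j (ρ j h' y) = cor ρ v j (h * h'⁻¹) := by
  unfold cor
  rw [← Equiv.sum_comp (ρ j h') (fun y => v j (ρ j (h * h'⁻¹) y) * v j y)]
  refine Finset.sum_congr rfl fun y _ => ?_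
  have : (ρ j (h * h'⁻¹)) ((ρ j h') y) = ρ j h y := by
    rw [← Equiv.Perm.mul_apply, ← map_mul, inv_mul_cancel_right]
  rw [this]

theorem sq_sum : ∑ x : (∀ j, S j), (∑ h : H, ∏ j, v j (ρ j h (x j))) ^ 2 =
    Fintype.card H * ∑ k : H, ∏ j, cor ρ v j k := by
  have h1 : ∀ x : (∀ j, S j), (∑ h : H, ∏ j, v j (ρ j h (x j))) ^ 2 =
      ∑ h' : H, ∑ h : H, ∏ j, (v j (ρ j h (x j)) * v j (ρ j h' (x j))) := by
    intro x
    rw [sq, Finset.sum_mul_sum, Finset.sum_comm]
    refine Finset.sum_congr rfl fun h' _ => Finset.sum_congr rfl fun h _ => ?_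
    rw [Finset.prod_mul_distrib]
  simp_rw [h1]
  rw [Finset.sum_comm]
  have h2 : ∀ h' : H, ∑ x : (∀ j, S j), ∑ h : H, ∏ j, (v j (ρ j h (x j)) * v j (ρ j h' (x j))) =
      ∑ k : H, ∏ j, cor ρ v j k := by
    intro h'
    rw [Finset.sum_comm]
    have h3 : ∀ h : H, ∑ x : (∀ j, S j), ∏ j, (v j (ρ j h (x j)) * v j (ρ j h' (x j))) =
        ∏ j, cor ρ v j (h * h'⁻¹) := by
      intro h
      rw [sum_prod (fun j y => v j (ρ j h y) * v j (ρ j h' y))]
      exact Finset.prod_congr rfl fun j _ => cor_two ρ v j h h'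
    simp_rw [h3]
    exact Equiv.sum_comp (Equiv.mulRight h'⁻¹) (fun k => ∏ j, cor ρ v j k)
  simp_rw [h2]
  rw [Finset.sum_const, nsmul_eq_mul, Finset.card_univ]

theorem L1 (B w : ℝ) (hB : 1 ≤ B) (hw : 0 ≤ w) (hv : ∀ j x, |v j x| ≤ B) (j₀ : Fin n)
    (h0 : ∑ h : H, |cor ρ v j₀ h| ≤ w * B * Fintype.card H * Fintype.card (S j₀)) :
    ∑ x : (∀ j, S j), (∑ h : H, ∏ j, v j (ρ j h (x j))) ^ 2 ≤
      w * B ^ (2 * n) * (Fintype.card H) ^ 2 * ∏ j, (Fintype.card (S j) : ℝ) := by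
  rw [sq_sum]
  have hB0 : 0 ≤ B := zero_le_one.trans hB
  have hc : ∀ j k, |cor ρ v j k| ≤ B ^ 2 * Fintype.card (S j) := by
    intro j k
    unfold cor
    calc |∑ y, v j (ρ j k y) * v j y| ≤ ∑ y, |v j (ρ j k y) * v j y| :=
          Finset.abs_sum_le_sum_abs _ _
      _ ≤ ∑ _y : S j, B ^ 2 := by
          refine Finset.sum_le_sum fun y _ => ?_
          rw [abs_mul, sq]
          exact mul_le_mul (hv _ _) (hv _ _) (abs_nonneg _) hB0
      _ = _ := by rw [Finset.sum_const, nsmul_eq_mul, Finset.card_univ, mul_comm]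
  have h1 : ∀ k, ∏ j, cor ρ v j k ≤
      |cor ρ v j₀ k| * ∏ j ∈ univ.erase j₀, (B ^ 2 * (Fintype.card (S j) : ℝ)) := by
    intro k
    calc ∏ j, cor ρ v j k ≤ |∏ j, cor ρ v j k| := le_abs_self _
      _ = ∏ j, |cor ρ v j k| := Finset.abs_prod _ _
      _ = |cor ρ v j₀ k| * ∏ j ∈ univ.erase j₀, |cor ρ v j k| :=
          (Finset.mul_prod_erase univ (fun j => |cor ρ v j k|) (mem_univ j₀)).symm
      _ ≤ _ := by
          apply mul_le_mul_of_nonneg_left _ (abs_nonneg _)
          exact Finset.prod_le_prod (fun j _ => abs_nonneg _) (fun j _ => hc j k)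
  have hP : 0 ≤ ∏ j ∈ univ.erase j₀, (B ^ 2 * (Fintype.card (S j) : ℝ)) :=
    Finset.prod_nonneg fun j _ => by positivity
  have h2 : ∑ k : H, ∏ j, cor ρ v j k ≤ (w * B * Fintype.card H * Fintype.card (S j₀)) *
      ∏ j ∈ univ.erase j₀, (B ^ 2 * (Fintype.card (S j) : ℝ)) := by
    calc ∑ k : H, ∏ j, cor ρ v j k ≤
        ∑ k : H, |cor ρ v j₀ k| * ∏ j ∈ univ.erase j₀, (B ^ 2 * (Fintype.card (S j) : ℝ)) :=
          Finset.sum_le_sum fun k _ => h1 k
      _ = (∑ k : H, |cor ρ v j₀ k|) * ∏ j ∈ univ.erase j₀, (B ^ 2 * (Fintype.card (S j) : ℝ)) :=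
          (Finset.sum_mul _ _ _).symm
      _ ≤ _ := mul_le_mul_of_nonneg_right h0 hP
  have h3 : (Fintype.card (S j₀) : ℝ) * ∏ j ∈ univ.erase j₀, (B ^ 2 * (Fintype.card (S j) : ℝ)) =
      B ^ (2 * (n - 1)) * ∏ j, (Fintype.card (S j) : ℝ) := by
    rw [Finset.prod_mul_distrib, Finset.prod_const, Finset.card_erase_of_mem (mem_univ _),
      Finset.card_univ, Fintype.card_fin, ← pow_mul,
      ← Finset.mul_prod_erase univ (fun j => (Fintype.card (S j) : ℝ)) (mem_univ j₀)]
    ring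
  have hn : 1 ≤ n := by have := j₀.2; omega
  have h4 : B * B ^ (2 * (n - 1)) ≤ B ^ (2 * n) := by
    rw [← pow_succ']
    exact pow_le_pow_right₀ hB (by omega)
  have hPr : 0 ≤ ∏ j, (Fintype.card (S j) : ℝ) := Finset.prod_nonneg fun j _ => by positivity
  calc (Fintype.card H : ℝ) * ∑ k : H, ∏ j, cor ρ v j k
      ≤ Fintype.card H * ((w * B * Fintype.card H * Fintype.card (S j₀)) *
      ∏ j ∈ univ.erase j₀, (B ^ 2 * (Fintype.card (S j) : ℝ))) :=
        mul_le_mul_of_nonneg_left h2 (Nat.cast_nonneg _)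
    _ = w * B * (Fintype.card H) ^ 2 * ((Fintype.card (S j₀) : ℝ) *
        ∏ j ∈ univ.erase j₀, (B ^ 2 * (Fintype.card (S j) : ℝ))) := by ring
    _ = (w * (Fintype.card H) ^ 2 * ∏ j, (Fintype.card (S j) : ℝ)) * (B * B ^ (2 * (n - 1))) := by
        rw [h3]; ring
    _ ≤ (w * (Fintype.card H) ^ 2 * ∏ j, (Fintype.card (S j) : ℝ)) * B ^ (2 * n) :=
        mul_le_mul_of_nonneg_left h4 (by positivity)
    _ = _ := by ring

end

theorem t_FC : S_FC := by
  classical
  intro n S _ G _ _ H _ ρ g c κ M w hw hκ hM hg hc hB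
  have hM0 : 0 ≤ M := zero_le_one.trans hM
  have hκ0 : 0 ≤ κ := zero_le_one.trans hκ
  let ρ' : ∀ j, H →* Equiv.Perm (S j) := fun j => (ρ j).comp H.subtype
  let v : Finset (Fin n) → ∀ j, S j → ℝ := fun J j y => if j ∈ J then g j y - c j else c j
  let T : Finset (Fin n) → (∀ j, S j) → ℝ := fun J x => ∑ h : H, ∏ j, v J j (ρ' j h (x j))
  let P : (∀ j, S j) → ℝ := fun x => ∑ h : H, (∏ j, g j (ρ' j h (x j)) - ∏ j, c j)
  let N : ℝ := ∏ j, (Fintype.card (S j) : ℝ)
  have hN : 0 ≤ N := Finset.prod_nonneg fun j _ => by positivity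
  have hH : (0 : ℝ) < Fintype.card H := by exact_mod_cast Fintype.card_pos
  have hG : (0 : ℝ) < Fintype.card G := by exact_mod_cast Fintype.card_pos
  -- one term
  have hT : ∀ J : Finset (Fin n), J ≠ ∅ →
      ∑ x, T J x ^ 2 ≤ (κ * w) * (2 * M) ^ (2 * n) * (Fintype.card H) ^ 2 * N := by
    intro J hJ
    obtain ⟨j₀, hj₀⟩ := Finset.nonempty_iff_ne_empty.2 hJ
    refine L1 ρ' (v J) (2 * M) (κ * w) (by linarith) (by positivity) ?_ j₀ ?_
    · intro j x
      simp only [v]
      split_ifs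
      · calc |g j x - c j| ≤ |g j x| + |c j| := abs_sub _ _
          _ ≤ M + M := add_le_add (hg _ _) (hc _)
          _ = 2 * M := by ring
      · exact (hc j).trans (by linarith)
    · have := hB j₀
      have e : ∀ h : H, cor ρ' (v J) j₀ h =
          ∑ x, (g j₀ (ρ j₀ h x) - c j₀) * (g j₀ x - c j₀) := by
        intro h
        unfold cor
        refine Finset.sum_congr rfl fun y _ => ?_
        simp only [v, if_pos hj₀]
        rfl
      simp_rw [e]
      exact this
  -- expansion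
  have hexp : ∀ x, P x = ∑ J ∈ (univ : Finset (Fin n)).powerset.erase ∅, T J x := by
    intro x
    simp only [P, T]
    rw [Finset.sum_comm]
    refine Finset.sum_congr rfl fun h _ => ?_
    have h1 : ∏ j, g j (ρ' j h (x j)) =
        ∑ J ∈ (univ : Finset (Fin n)).powerset, ∏ j, v J j (ρ' j h (x j)) := by
      have h2 := Finset.prod_add (fun j => g j (ρ' j h (x j)) - c j) c (univ : Finset (Fin n))
      simp only [sub_add_cancel] at h2
      rw [h2]
      refine Finset.sum_congr rfl fun J _ => ?_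
      have h3 := Finset.prod_piecewise (univ : Finset (Fin n)) J
        (fun j => g j (ρ' j h (x j)) - c j) c
      rw [Finset.univ_inter] at h3
      rw [← h3]
      refine Finset.prod_congr rfl fun j _ => ?_
      simp only [v, Finset.piecewise]
    rw [h1, ← Finset.add_sum_erase _ _ (Finset.empty_mem_powerset _)]
    have h4 : ∏ j, v ∅ j (ρ' j h (x j)) = ∏ j, c j :=
      Finset.prod_congr rfl fun j _ => if_neg (Finset.notMem_empty j)
    rw [h4]
    ring
  have hP : ∑ x, P x ^ 2 ≤ 4 ^ n * ((κ * w) * (2 * M) ^ (2 * n) * (Fintype.card H) ^ 2 * N) := by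
    set I := (univ : Finset (Fin n)).powerset.erase ∅ with hI
    have hIc : (I.card : ℝ) ≤ 2 ^ n := by
      have : I.card ≤ 2 ^ n := by
        calc I.card ≤ (univ : Finset (Fin n)).powerset.card := Finset.card_erase_le
          _ = 2 ^ n := by rw [Finset.card_powerset, Finset.card_univ, Fintype.card_fin]
      exact_mod_cast this
    set C := (κ * w) * (2 * M) ^ (2 * n) * (Fintype.card H : ℝ) ^ 2 * N with hC
    have hC0 : 0 ≤ C := by positivity
    calc ∑ x, P x ^ 2 ≤ ∑ x, (2 ^ n * ∑ J ∈ I, T J x ^ 2) := by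
          refine Finset.sum_le_sum fun x _ => ?_
          rw [hexp]
          refine (sq_sum_le_card_mul_sum_sq (s := I) (f := fun J => T J x)).trans ?_
          exact mul_le_mul_of_nonneg_right hIc (Finset.sum_nonneg fun J _ => sq_nonneg _)
      _ = 2 ^ n * ∑ J ∈ I, ∑ x, T J x ^ 2 := by rw [← Finset.mul_sum, Finset.sum_comm]
      _ ≤ 2 ^ n * ∑ _J ∈ I, C := by
          apply mul_le_mul_of_nonneg_left _ (by positivity)
          exact Finset.sum_le_sum fun J hJ => hT J (Finset.ne_of_mem_erase hJ)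
      _ = 2 ^ n * (I.card * C) := by rw [Finset.sum_const, nsmul_eq_mul]
      _ ≤ 2 ^ n * (2 ^ n * C) := by
          apply mul_le_mul_of_nonneg_left _ (by positivity)
          exact mul_le_mul_of_nonneg_right hIc hC0
      _ = 4 ^ n * C := by
          rw [← mul_assoc, ← mul_pow]
          norm_num
  -- averaging over `G`
  let f : (∀ j, S j) → G → ℝ := fun x σ => ∏ j, g j (ρ j σ (x j)) - ∏ j, c j
  let Q : (∀ j, S j) → ℝ := fun x => ∑ σ : G, f x σ
  let E : G → (∀ j, S j) ≃ (∀ j, S j) := fun σ => Equiv.piCongrRight (fun j => ρ j σ)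
  have hQ : ∀ x, (Fintype.card H : ℝ) * Q x = ∑ σ : G, P (E σ x) := by
    intro x
    simp only [P, Q]
    rw [Finset.sum_comm]
    have h1 : ∀ h : H, ∑ σ : G, (∏ j, g j (ρ' j h (E σ x j)) - ∏ j, c j) = ∑ σ : G, f x σ := by
      intro h
      rw [← Equiv.sum_comp (Equiv.mulLeft (h : G)) (fun σ => f x σ)]
      refine Finset.sum_congr rfl fun σ _ => ?_
      simp only [f, Equiv.coe_mulLeft, map_mul, Equiv.Perm.mul_apply]
      rfl
    simp_rw [h1]
    rw [Finset.sum_const, nsmul_eq_mul, Finset.card_univ]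
  have hQ2 : (Fintype.card H : ℝ) ^ 2 * ∑ x, Q x ^ 2 ≤ (Fintype.card G : ℝ) ^ 2 * ∑ x, P x ^ 2 := by
    calc (Fintype.card H : ℝ) ^ 2 * ∑ x, Q x ^ 2 = ∑ x, (∑ σ : G, P (E σ x)) ^ 2 := by
          rw [Finset.mul_sum]
          refine Finset.sum_congr rfl fun x _ => ?_
          rw [← hQ]
          ring
      _ ≤ ∑ x, (Fintype.card G : ℝ) * ∑ σ : G, P (E σ x) ^ 2 := by
          refine Finset.sum_le_sum fun x _ => ?_
          have := sq_sum_le_card_mul_sum_sq (s := (univ : Finset G)) (f := fun σ => P (E σ x))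
          rwa [Finset.card_univ] at this
      _ = (Fintype.card G : ℝ) * ∑ σ : G, ∑ x, P (E σ x) ^ 2 := by
          rw [← Finset.mul_sum, Finset.sum_comm]
      _ = (Fintype.card G : ℝ) * ∑ _σ : G, ∑ x, P x ^ 2 := by
          congr 1
          refine Finset.sum_congr rfl fun σ _ => ?_
          exact Equiv.sum_comp (E σ) (fun x => P x ^ 2)
      _ = _ := by
          rw [Finset.sum_const, nsmul_eq_mul, Finset.card_univ]
          ring
  have hfin : ∀ x : (∀ j, S j), (∑ σ : G, ∏ j, g j (ρ j σ (x j))) / Fintype.card G - ∏ j, c j =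
      Q x / Fintype.card G := by
    intro x
    simp only [Q, f]
    rw [Finset.sum_sub_distrib, Finset.sum_const, nsmul_eq_mul, Finset.card_univ, sub_div,
      mul_div_cancel_left₀ _ hG.ne']
  simp_rw [hfin, div_pow]
  rw [← Finset.sum_div, div_le_iff₀ (by positivity)]
  have hcard : (Fintype.card (∀ j, S j) : ℝ) = N := by
    rw [Fintype.card_pi]
    push_cast
    rfl
  rw [hcard]
  have h9 : (Fintype.card H : ℝ) ^ 2 * ∑ x, Q x ^ 2 ≤ (Fintype.card H : ℝ) ^ 2 *
      (4 ^ n * κ * (2 * M) ^ (2 * n) * w * N * (Fintype.card G : ℝ) ^ 2) := by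
    calc _ ≤ _ := hQ2
      _ ≤ (Fintype.card G : ℝ) ^ 2 *
          (4 ^ n * ((κ * w) * (2 * M) ^ (2 * n) * (Fintype.card H) ^ 2 * N)) :=
          mul_le_mul_of_nonneg_left hP (by positivity)
      _ = _ := by ring
  exact le_of_mul_le_mul_left h9 (by positivity)

end FC
end Pool.Agent.Run7.h641.AP
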