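import Pool.Agent.Run7.h641.AP.Iface

/-!
# The group `E ⊓ Gal(Qb/K)` acts on the CM points of one discriminant through a commutative group
-/

set_option autoImplicit false

open MeasureTheory Filter Topology
open scoped UpperHalfPlane MatrixGroups ENNReal
open Pool.Agent.Run7.h762.EQ

namespace Pool.Agent.Run7.h641.AP.COMM

theorem t_COMM : S_COMM := by
  intro Qb _ _ F Γ m C E hEF hrec D a ha b hb
  obtain ⟨σ, hσ, rfl⟩ := ha
  obtain ⟨τ, hτ, rfl⟩ := hb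
  have hσ' : (σ : Qb ≃ₐ[ℚ] Qb) ∈ EK E D := hσ
  have hτ' : (τ : Qb ≃ₐ[ℚ] Qb) ∈ EK E D := hτ
  refine Equiv.ext fun x => Subtype.ext ?_
  show C.act σ (C.act τ x.1) = C.act τ (C.act σ x.1)
  have hy : disc (C.act (τ : Qb ≃ₐ[ℚ] Qb) x.1) = D := by
    rw [C.disc_act _ τ.2]; exact x.2
  have h1 := (hrec (C.act (τ : Qb ≃ₐ[ℚ] Qb) x.1) σ (by rw [hy]; exact hσ') τ).1
    (by rw [hy]; exact hτ'.2)
  rw [← h1, ← C.act_mul _ (F.fixingSubgroup.mul_mem (F.fixingSubgroup.mul_mem τ.2 σ.2)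
    (F.fixingSubgroup.inv_mem τ.2)) _ τ.2, ← C.act_mul _ τ.2 _ σ.2]
  congr 1
  group

end Pool.Agent.Run7.h641.AP.COMM
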