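import Pool.Agent.Run7.h641.AP.Iface

/-!
# Weyl sums over the group through which `E ⊓ Gal(Qb/K)` acts on the CM points of one discriminant
-/

set_option autoImplicit false

open MeasureTheory Filter Topology
open scoped UpperHalfPlane MatrixGroups ENNReal
open Pool.Agent.Run7.h762.EQ

namespace Pool.Agent.Run7.h641.AP.W

/-- sums over a finite group as sums over an orbit -/
lemma fib {A T : Type} [Group A] [Fintype A] (e : A → T)
    (he : ∀ a b s, e a = e b → e (s * a) = e (s * b)) :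
    ∃ k : ℕ, (∀ h : T → ℂ, ∑ a, h (e a) = k * ∑ᶠ y ∈ Set.range e, h y) ∧
      (∀ h : T → ℝ, ∑ a, h (e a) = k * ∑ᶠ y ∈ Set.range e, h y) ∧
      Fintype.card A = k * (Set.range e).ncard := by
  classical
  obtain ⟨k, hk⟩ : ∃ k, k = (Finset.univ.filter (fun b => e b = e 1)).card := ⟨_, rfl⟩
  have hR : Set.range e = ((Finset.univ.image e : Finset T) : Set T) := by
    rw [Finset.coe_image, Finset.coe_univ, Set.image_univ]
  have hc : ∀ a, (Finset.univ.filter (fun b => e b = e a)).card = k := by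
    intro a
    rw [hk]
    apply Finset.card_bij (fun b _ => a⁻¹ * b)
    · intro b hb
      simp only [Finset.mem_filter, Finset.mem_univ, true_and] at hb ⊢
      rw [he b a a⁻¹ hb, inv_mul_cancel]
    · intro b _ b' _ h
      exact mul_left_cancel h
    · intro b hb
      simp only [Finset.mem_filter, Finset.mem_univ, true_and] at hb
      refine ⟨a * b, ?_, by group⟩
      simp only [Finset.mem_filter, Finset.mem_univ, true_and]
      rw [he b 1 a hb, mul_one]
  have hs : ∀ (R : Type) [CommSemiring R] (h : T → R),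
      ∑ a, h (e a) = k * ∑ y ∈ Finset.univ.image e, h y := by
    intro R _ h
    rw [Finset.sum_comp h e, Finset.mul_sum]
    apply Finset.sum_congr rfl
    intro y hy
    obtain ⟨a, -, rfl⟩ := Finset.mem_image.1 hy
    rw [hc a, nsmul_eq_mul]
  refine ⟨k, ?_, ?_, ?_⟩
  · intro h
    rw [hs ℂ, hR, finsum_mem_coe_finset]
  · intro h
    rw [hs ℝ, hR, finsum_mem_coe_finset]
  · have h1 := hs ℕ (fun _ => 1)
    rw [hR, Set.ncard_coe_finset]
    simpa using h1

theorem t_W : S_W := by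
  intro _ Qb _ _ F Γ m hm C hT E hEn hE0 hEF hrec g ε hε
  classical
  obtain ⟨η, hη, hduke⟩ := C.duke_ext hm
  obtain ⟨B1, hB1⟩ := hduke g ε hε
  obtain ⟨f, hf, hfs, hfg⟩ := exists_compact_approx g (ε / 3) (by positivity)
  obtain ⟨B2, hB2⟩ := hT E hEn hE0 hEF hrec f hf hfs (ε / 3) (by positivity)
  obtain ⟨B3, hB3⟩ : ∃ B3 : ℝ, ∀ d : ℝ, B3 ≤ d → (2 * (E.index : ℝ)) ≤ d ^ η := by
    have h1 := (tendsto_rpow_atTop hη).eventually (eventually_ge_atTop (2 * (E.index : ℝ)))
    obtain ⟨B, hB⟩ := eventually_atTop.1 h1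
    exact ⟨B, hB⟩
  refine ⟨max B1 (max B2 B3), fun D hD x => ?_⟩
  obtain ⟨x, rfl⟩ := x
  intro χ
  have hD1 : B1 ≤ |(disc x : ℝ)| := (le_max_left _ _).trans hD
  have hD2 : B2 ≤ |(disc x : ℝ)| := ((le_max_left _ _).trans (le_max_right _ _)).trans hD
  have hD3 : B3 ≤ |(disc x : ℝ)| := ((le_max_right _ _).trans (le_max_right _ _)).trans hD
  haveI : Finite (Pt Γ (disc x)) := (C.finite_disc (disc x)).to_subtype
  haveI : Fintype (img C (disc x) (EK E (disc x))) := Fintype.ofFinite _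
  have hEKF : EK E (disc x) ≤ F.fixingSubgroup := inf_le_left.trans hEF
  obtain ⟨c, hc⟩ : ∃ c : ℝ, c = ∫ y, g (y : OnePoint (Curve Γ)) ∂m := ⟨_, rfl⟩
  rw [← hc]
  obtain ⟨p, hp⟩ : ∃ p : Pt Γ (disc x), p = ⟨x, rfl⟩ := ⟨_, rfl⟩
  rw [← hp]
  obtain ⟨e, he⟩ : ∃ e : img C (disc x) (EK E (disc x)) → CMPoint Γ, e = fun a => (a.1 p).1 :=
    ⟨_, rfl⟩
  obtain ⟨φ, hφ⟩ : ∃ φ : CMPoint Γ → ℝ, φ = fun y => g (y.pt : OnePoint (Curve Γ)) := ⟨_, rfl⟩
  have hee : ∀ a b s, e a = e b → e (s * a) = e (s * b) := by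
    intro a b s h
    rw [he] at h ⊢
    have h1 : a.1 p = b.1 p := Subtype.ext h
    show ((s.1 * a.1) p).1 = ((s.1 * b.1) p).1
    rw [Equiv.Perm.mul_apply, Equiv.Perm.mul_apply, h1]
  have hel : ∀ σ ∈ EK E (disc x), ∃ a : img C (disc x) (EK E (disc x)),
      ∀ y, (a.1 y).1 = C.act σ y.1 := by
    intro σ hσ
    exact ⟨⟨rho C (disc x) ⟨σ, hEKF hσ⟩, ⟨σ, hEKF hσ⟩, hσ, rfl⟩, fun y => rfl⟩
  have hle : ∀ a : img C (disc x) (EK E (disc x)), ∃ σ ∈ EK E (disc x),
      ∀ y, (a.1 y).1 = C.act σ y.1 := by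
    rintro ⟨a, σ, hσ, rfl⟩
    exact ⟨σ, hσ, fun y => rfl⟩
  have hrange : Set.range e = {y | ∃ σ ∈ EK E (disc x), C.act σ x = y} := by
    ext y
    constructor
    · rintro ⟨a, rfl⟩
      obtain ⟨σ, hσ, h1⟩ := hle a
      refine ⟨σ, hσ, ?_⟩
      rw [he]
      show C.act σ x = (a.1 p).1
      rw [h1, hp]
    · rintro ⟨σ, hσ, rfl⟩
      obtain ⟨a, h1⟩ := hel σ hσ
      refine ⟨a, ?_⟩
      rw [he]
      show (a.1 p).1 = C.act σ x
      rw [h1, hp]
  have he1 : e 1 = x := by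
    rw [he]
    show p.1 = x
    rw [hp]
  obtain ⟨k, hk1, hk2, hk3⟩ := fib e hee
  have hsum : (∑ᶠ a : img C (disc x) (EK E (disc x)), χ a *
      ((g ((a.1 p).1.pt : OnePoint (Curve Γ)) - c : ℝ) : ℂ)) =
      ∑ a, χ a * ((φ (e a) - c : ℝ) : ℂ) := by
    rw [finsum_eq_sum_of_fintype, hφ, he]
  rw [hsum, Nat.card_eq_fintype_card]
  by_cases h1 : ∀ a, χ a = 1
  · -- the trivial character
    have hidx : (EK E (disc x)).index ≤ E.index * 2 :=
      Subgroup.index_inf_le.trans (Nat.mul_le_mul le_rfl (fixSqrt_index (Qb := Qb) (disc x)).2)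
    have hidx0 : (EK E (disc x)).index ≠ 0 :=
      Subgroup.index_inf_ne_zero hE0 (fixSqrt_index (Qb := Qb) (disc x)).1
    have h2 := hB1 x hD1 (EK E (disc x)) hEKF hidx0 (by
      refine le_trans ?_ (hB3 _ hD3)
      have h3 : ((EK E (disc x)).index : ℝ) ≤ ((E.index * 2 : ℕ) : ℝ) := by exact_mod_cast hidx
      refine h3.trans ?_
      push_cast
      linarith)
    rw [← hrange, ← hc] at h2
    have hfin : (Set.range e).Finite := Set.finite_range e
    have hne : (0 : ℝ) < ((Set.range e).ncard : ℝ) := by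
      have : 0 < (Set.range e).ncard := (Set.ncard_pos hfin).2 ⟨_, 1, rfl⟩
      exact_mod_cast this
    have h3 : ∑ᶠ y ∈ Set.range e, φ y = mean (Set.range e) φ * ((Set.range e).ncard : ℝ) := by
      unfold mean
      field_simp
    have h4 : ∑ a, χ a * ((φ (e a) - c : ℝ) : ℂ) =
        (((Fintype.card (img C (disc x) (EK E (disc x))) : ℝ) * (mean (Set.range e) φ - c) : ℝ) : ℂ) := by
      have h5 : ∑ a, χ a * ((φ (e a) - c : ℝ) : ℂ) = ((∑ a, (φ (e a) - c) : ℝ) : ℂ) := by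
        rw [Complex.ofReal_sum]
        exact Finset.sum_congr rfl fun a _ => by rw [h1 a, one_mul]
      rw [h5, Finset.sum_sub_distrib, hk2 φ, h3, Finset.sum_const, nsmul_eq_mul, Finset.card_univ, hk3]
      push_cast
      ring
    rw [h4, Complex.norm_real, Real.norm_eq_abs, abs_mul, Nat.abs_cast, mul_comm]
    refine mul_le_mul_of_nonneg_right ?_ (by positivity)
    rw [hφ]
    exact h2
  · push Not at h1
    obtain ⟨a₀, ha₀⟩ := h1
    by_cases h2 : ∃ s, e s = e 1 ∧ χ s ≠ 1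
    · -- the character is not trivial on the stabiliser
      obtain ⟨s, hs, hs1⟩ := h2
      have h3 : ∑ a, χ a * ((φ (e a) - c : ℝ) : ℂ) = χ s * ∑ a, χ a * ((φ (e a) - c : ℝ) : ℂ) := by
        conv_lhs => rw [← Equiv.sum_comp (Equiv.mulRight s)]
        rw [Finset.mul_sum]
        refine Finset.sum_congr rfl fun a _ => ?_
        rw [Equiv.coe_mulRight, map_mul, hee s 1 a hs, mul_one]
        ring
      have h4 : (1 - χ s) * ∑ a, χ a * ((φ (e a) - c : ℝ) : ℂ) = 0 := by
        rw [sub_mul, one_mul, ← h3, sub_self]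
      have h5 : (1 - χ s) ≠ 0 := sub_ne_zero.2 (Ne.symm hs1)
      rw [(mul_eq_zero.1 h4).resolve_left h5, norm_zero]
      positivity
    · push Not at h2
      have hχ : ∀ a b, e a = e b → χ a = χ b := by
        intro a b h
        have h3 := hee a b b⁻¹ h
        rw [inv_mul_cancel] at h3
        have h4 := h2 _ h3
        calc χ a = χ (b * (b⁻¹ * a)) := by rw [mul_inv_cancel_left]
          _ = χ b := by rw [map_mul, h4, mul_one]
      obtain ⟨ψ, hψ⟩ : ∃ ψ : CMPoint Γ → ℂ, ∀ a, ψ (e a) = χ a := by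
        refine ⟨fun y => if h : ∃ a, e a = y then χ h.choose else 0, fun a => ?_⟩
        have h3 : ∃ b, e b = e a := ⟨a, rfl⟩
        show (if h : ∃ b, e b = e a then χ h.choose else 0) = χ a
        rw [dif_pos h3]
        exact hχ _ _ h3.choose_spec
      have hact : ∀ a : img C (disc x) (EK E (disc x)), ∀ σ, (∀ y, (a.1 y).1 = C.act σ y.1) →
          e a = C.act σ x := by
        intro a σ h
        rw [he]
        show (a.1 p).1 = C.act σ x
        rw [h, hp]
      have h3 := hB2 x hD2 ψ (by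
        intro σ hσ τ hτ
        obtain ⟨a, ha⟩ := hel σ hσ
        obtain ⟨b, hb⟩ := hel τ hτ
        have h4 : e (a * b) = C.act (σ * τ) x := by
          rw [he]
          show (a.1 (b.1 p)).1 = C.act (σ * τ) x
          rw [ha, hb, hp, C.act_mul σ (hEKF hσ) τ (hEKF hτ)]
        rw [← h4, ← hact a σ ha, ← hact b τ hb, hψ, hψ, hψ, map_mul]) (by
        have h4 := hψ 1
        rw [he1, map_one] at h4
        exact h4) (by
        obtain ⟨σ, hσ, h4⟩ := hle a₀
        refine ⟨σ, hσ, ?_⟩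
        rw [← hact a₀ σ h4, hψ]
        exact ha₀)
      rw [← hrange] at h3
      have hnorm : ∀ a, ‖χ a‖ = 1 := by
        intro a
        have h4 : (χ a) ^ Fintype.card (img C (disc x) (EK E (disc x))) = 1 := by
          rw [← map_pow, pow_card_eq_one, map_one]
        exact Complex.norm_eq_one_of_pow_eq_one h4 Fintype.card_ne_zero
      have hzero : ∑ a, χ a = 0 := by
        have h4 : ∑ a, χ a = χ a₀ * ∑ a, χ a := by
          conv_lhs => rw [← Equiv.sum_comp (Equiv.mulLeft a₀)]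
          rw [Finset.mul_sum]
          refine Finset.sum_congr rfl fun a _ => ?_
          rw [Equiv.coe_mulLeft, map_mul]
        have h5 : (1 - χ a₀) * ∑ a, χ a = 0 := by
          rw [sub_mul, one_mul, ← h4, sub_self]
        exact (mul_eq_zero.1 h5).resolve_left (sub_ne_zero.2 (Ne.symm ha₀))
      obtain ⟨r, hr⟩ : ∃ r : CMPoint Γ → ℝ, r = fun y => φ y - g OnePoint.infty - f y.pt := ⟨_, rfl⟩
      have hr1 : ∀ y, |r y| ≤ ε / 3 := by
        intro y
        rw [hr, hφ]
        exact hfg y.pt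
      have hsplit : ∑ a, χ a * ((φ (e a) - c : ℝ) : ℂ) =
          (∑ a, χ a) * ((g OnePoint.infty - c : ℝ) : ℂ) + ∑ a, ψ (e a) * (f (e a).pt : ℂ) +
            ∑ a, χ a * (r (e a) : ℂ) := by
        rw [Finset.sum_mul, ← Finset.sum_add_distrib, ← Finset.sum_add_distrib]
        refine Finset.sum_congr rfl fun a _ => ?_
        rw [hψ, hr]
        push_cast
        ring
      have h6 : ‖∑ a, ψ (e a) * (f (e a).pt : ℂ)‖ ≤
          ε / 3 * (Fintype.card (img C (disc x) (EK E (disc x))) : ℝ) := by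
        rw [hk1 (fun y => ψ y * (f y.pt : ℂ)), norm_mul, Complex.norm_natCast, hk3]
        push_cast
        calc (k : ℝ) * ‖∑ᶠ y ∈ Set.range e, ψ y * (f y.pt : ℂ)‖
            ≤ (k : ℝ) * (ε / 3 * ((Set.range e).ncard : ℝ)) :=
              mul_le_mul_of_nonneg_left h3 (Nat.cast_nonneg k)
          _ = ε / 3 * ((k : ℝ) * ((Set.range e).ncard : ℝ)) := by ring
      have h7 : ‖∑ a, χ a * (r (e a) : ℂ)‖ ≤
          ε / 3 * (Fintype.card (img C (disc x) (EK E (disc x))) : ℝ) := by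
        refine (norm_sum_le _ _).trans ?_
        calc ∑ a, ‖χ a * (r (e a) : ℂ)‖ ≤ ∑ _a : img C (disc x) (EK E (disc x)), ε / 3 := by
              refine Finset.sum_le_sum fun a _ => ?_
              rw [norm_mul, hnorm, one_mul, Complex.norm_real, Real.norm_eq_abs]
              exact hr1 _
          _ = ε / 3 * (Fintype.card (img C (disc x) (EK E (disc x))) : ℝ) := by
              rw [Finset.sum_const, nsmul_eq_mul, Finset.card_univ, mul_comm]
      rw [hsplit, hzero, zero_mul, zero_add]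
      have h8 : (0 : ℝ) ≤ (Fintype.card (img C (disc x) (EK E (disc x))) : ℝ) := Nat.cast_nonneg _
      calc ‖∑ a, ψ (e a) * (f (e a).pt : ℂ) + ∑ a, χ a * (r (e a) : ℂ)‖
          ≤ ‖∑ a, ψ (e a) * (f (e a).pt : ℂ)‖ + ‖∑ a, χ a * (r (e a) : ℂ)‖ := norm_add_le _ _
        _ ≤ ε / 3 * (Fintype.card (img C (disc x) (EK E (disc x))) : ℝ) +
            ε / 3 * (Fintype.card (img C (disc x) (EK E (disc x))) : ℝ) := add_le_add h6 h7
        _ ≤ ε * (Fintype.card (img C (disc x) (EK E (disc x))) : ℝ) := by nlinarith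

end Pool.Agent.Run7.h641.AP.W
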