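import Pool.Agent.Run7.h641.AP.Iface
import Pool.Agent.Run7.h762.EQ.I

/-!
# Almost all special points of products of modular curves: assembly
-/

set_option autoImplicit false
set_option linter.style.haveILetI false
set_option linter.deprecated false

open MeasureTheory Filter Topology
open scoped UpperHalfPlane MatrixGroups ENNReal
open Pool.Agent.Run7.h762.EQ

namespace Pool.Agent.Run7.h641.AP.Fin'

variable {Qb : Type} [Field Qb] [Algebra ℚ Qb]

section second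

variable {n : ℕ} {Γ : Fin n → Subgroup SL(2, ℤ)} {F : IntermediateField ℚ Qb} {m : ∀ j, Measure (Curve (Γ j))}

/-- the second moment over the tuples with given discriminants -/
lemma moment (hFA : S_FA) (hFB : S_FB) (hFC : S_FC) (hCOMM : S_COMM) (hIDX : S_IDX)
    (C : ∀ j, Model (Γ j) F (m j)) (hm : ∀ j, IsProbabilityMeasure (m j))
    (E : Subgroup (Qb ≃ₐ[ℚ] Qb)) (hFE : E ≤ F.fixingSubgroup) (hE : ∀ j, Rec (C j) E)
    (D : Fin n → ℤ) (g : ∀ j, C(OnePoint (Curve (Γ j)), ℝ)) (M w : ℝ) (hM : 1 ≤ M) (hw : 0 ≤ w) (hg : ∀ j, ‖g j‖ ≤ M)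
    (hW : ∀ j, ∀ x : Pt (Γ j) (D j), ∀ χ : img (C j) (D j) (EK E (D j)) →* ℂ,
      ‖∑ᶠ a : img (C j) (D j) (EK E (D j)), χ a * ((g j ((a.1 x).1.pt : OnePoint (Curve (Γ j))) -
        ∫ y, g j (y : OnePoint (Curve (Γ j))) ∂(m j) : ℝ) : ℂ)‖ ≤ w * Nat.card (img (C j) (D j) (EK E (D j)))) :
    ∑ᶠ x : (∀ j, Pt (Γ j) (D j)),
      ((∑ᶠ σ : (MonoidHom.pi fun j => rho (C j) (D j)).range, ∏ j, g j ((σ.1 j (x j)).1.pt : OnePoint (Curve (Γ j)))) /
        Nat.card (MonoidHom.pi fun j => rho (C j) (D j)).range - ∏ j, ∫ y, g j (y : OnePoint (Curve (Γ j))) ∂(m j)) ^ 2 ≤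
      4 ^ n * 2 ^ n * (2 * M) ^ (2 * n) * w * Nat.card (∀ j, Pt (Γ j) (D j)) := by
  classical
  haveI := hm
  haveI hfin : ∀ j, Finite (Pt (Γ j) (D j)) := fun j => (C j).finite_disc (D j)
  letI : ∀ j, Fintype (Pt (Γ j) (D j)) := fun j => Fintype.ofFinite _
  obtain ⟨Φ, hΦ⟩ : ∃ Φ : F.fixingSubgroup →* (∀ j, Equiv.Perm (Pt (Γ j) (D j))), Φ = MonoidHom.pi fun j => rho (C j) (D j) := ⟨_, rfl⟩
  rw [← hΦ]
  haveI : Finite (∀ j, Equiv.Perm (Pt (Γ j) (D j))) := inferInstance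
  letI : Fintype Φ.range := Fintype.ofFinite _
  obtain ⟨U, hU⟩ : ∃ U : Subgroup (Qb ≃ₐ[ℚ] Qb), U = ⨅ l, EK E (D l) := ⟨_, rfl⟩
  obtain ⟨H, hH⟩ : ∃ H : Subgroup Φ.range, H = (U.subgroupOf F.fixingSubgroup).map Φ.rangeRestrict := ⟨_, rfl⟩
  letI : Fintype H := Fintype.ofFinite _
  obtain ⟨ρ, hρ⟩ : ∃ ρ : ∀ j, Φ.range →* Equiv.Perm (Pt (Γ j) (D j)), ρ = fun j => (Pi.evalMonoidHom _ j).comp Φ.range.subtype := ⟨_, rfl⟩
  have hρa : ∀ j (σ : Φ.range), ρ j σ = σ.1 j := by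
    intro j σ
    rw [hρ]
    rfl
  have hrange : ∀ j, ((ρ j).comp H.subtype).range = img (C j) (D j) U := by
    intro j
    rw [MonoidHom.range_eq_map, ← Subgroup.map_map, ← MonoidHom.range_eq_map, Subgroup.range_subtype, hH, Subgroup.map_map]
    unfold img
    congr 1
    ext τ : 1
    rw [hρ, hΦ]
    rfl
  have hUle : ∀ j, U ≤ EK E (D j) := by
    intro j
    rw [hU]
    exact iInf_le _ j
  have himg : ∀ j, img (C j) (D j) U ≤ img (C j) (D j) (EK E (D j)) := by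
    intro j
    unfold img
    apply Subgroup.map_mono
    intro τ hτ
    exact hUle j hτ
  have hcM : ∀ j, |∫ y, g j (y : OnePoint (Curve (Γ j))) ∂(m j)| ≤ M := by
    intro j
    have := norm_integral_le_of_norm_le_const (μ := m j) (f := fun y : Curve (Γ j) => g j (y : OnePoint (Curve (Γ j)))) (C := M)
      (Eventually.of_forall (fun y => ((g j).norm_coe_le_norm _).trans (hg j)))
    simpa using this
  have hgM : ∀ j (x : Pt (Γ j) (D j)), |g j (x.1.pt : OnePoint (Curve (Γ j)))| ≤ M :=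
    fun j x => ((g j).norm_coe_le_norm _).trans (hg j)
  have key := hFC n (fun j => Pt (Γ j) (D j)) Φ.range H ρ (fun j x => g j (x.1.pt : OnePoint (Curve (Γ j))))
    (fun j => ∫ y, g j (y : OnePoint (Curve (Γ j))) ∂(m j)) (2 ^ n) M w hw (one_le_pow₀ (by norm_num)) hM hgM hcM (by
    intro j
    have h1 := hFB hFA (Pt (Γ j) (D j)) H ((ρ j).comp H.subtype) (img (C j) (D j) (EK E (D j))) (2 ^ n) (2 * M) w
      (fun x => g j (x.1.pt : OnePoint (Curve (Γ j))) - ∫ y, g j (y : OnePoint (Curve (Γ j))) ∂(m j)) hw (by positivity)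
      (by positivity) (hCOMM Qb F (Γ j) (m j) (C j) E hFE (hE j) (D j))
      (fun h => himg j (by rw [← hrange j]; exact ⟨h, rfl⟩))
      (by
        rw [hrange j, hU]
        exact_mod_cast hIDX Qb F n D j (Γ j) (m j) (C j) E hFE)
      (fun x => by
        have h2 := hgM j x
        have h3 := hcM j
        calc |g j (x.1.pt : OnePoint (Curve (Γ j))) - ∫ y, g j (y : OnePoint (Curve (Γ j))) ∂(m j)|
            ≤ |g j (x.1.pt : OnePoint (Curve (Γ j)))| + |∫ y, g j (y : OnePoint (Curve (Γ j))) ∂(m j)| := abs_sub _ _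
          _ ≤ 2 * M := by linarith)
      (hW j)
    exact h1)
  rw [finsum_eq_sum_of_fintype]
  have e1 : ∀ x : (∀ j, Pt (Γ j) (D j)), (∑ᶠ σ : Φ.range, ∏ j, g j ((σ.1 j (x j)).1.pt : OnePoint (Curve (Γ j)))) =
      ∑ σ : Φ.range, ∏ j, g j ((ρ j σ (x j)).1.pt : OnePoint (Curve (Γ j))) := by
    intro x
    rw [finsum_eq_sum_of_fintype]
    simp only [hρa]
  simp_rw [e1, Nat.card_eq_fintype_card]
  exact key

/-- the test functions -/
noncomputable def tst (C : ∀ j, Model (Γ j) F (m j)) (g : ∀ j, C(OnePoint (Curve (Γ j)), ℝ)) (x : ∀ j, CMPoint (Γ j)) : ℝ :=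
  mean (orb C F.fixingSubgroup x) (fun w => ∏ j, g j ((w j).pt : OnePoint (Curve (Γ j)))) -
    ∏ j, ∫ y, g j (y : OnePoint (Curve (Γ j))) ∂(m j)

lemma emb_inj (D : Fin n → ℤ) : Function.Injective (fun (x : ∀ j, Pt (Γ j) (D j)) (j : Fin n) => (x j).1) := by
  intro x y h
  funext j
  exact Subtype.ext (congrFun h j)

lemma emb_image (D : Fin n → ℤ) : {x : ∀ j, CMPoint (Γ j) | (fun j => disc (x j)) = D} =
    (fun (x : ∀ j, Pt (Γ j) (D j)) (j : Fin n) => (x j).1) '' Set.univ := by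
  ext x
  constructor
  · intro h
    exact ⟨fun j => ⟨x j, congrFun h j⟩, Set.mem_univ _, rfl⟩
  · rintro ⟨y, -, rfl⟩
    funext j
    exact (y j).2

/-- the second moment of the test functions -/
lemma moment2 (hFA : S_FA) (hFB : S_FB) (hFC : S_FC) (hCOMM : S_COMM) (hIDX : S_IDX) (hORB : S_ORB)
    (C : ∀ j, Model (Γ j) F (m j)) (hm : ∀ j, IsProbabilityMeasure (m j))
    (E : Subgroup (Qb ≃ₐ[ℚ] Qb)) (hFE : E ≤ F.fixingSubgroup) (hE : ∀ j, Rec (C j) E)
    (D : Fin n → ℤ) (g : ∀ j, C(OnePoint (Curve (Γ j)), ℝ)) (M w : ℝ) (hM : 1 ≤ M) (hw : 0 ≤ w) (hg : ∀ j, ‖g j‖ ≤ M)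
    (hW : ∀ j, ∀ x : Pt (Γ j) (D j), ∀ χ : img (C j) (D j) (EK E (D j)) →* ℂ,
      ‖∑ᶠ a : img (C j) (D j) (EK E (D j)), χ a * ((g j ((a.1 x).1.pt : OnePoint (Curve (Γ j))) -
        ∫ y, g j (y : OnePoint (Curve (Γ j))) ∂(m j) : ℝ) : ℂ)‖ ≤ w * Nat.card (img (C j) (D j) (EK E (D j)))) :
    ∑ᶠ x ∈ {x : ∀ j, CMPoint (Γ j) | (fun j => disc (x j)) = D}, tst C g x ^ 2 ≤
      4 ^ n * 2 ^ n * (2 * M) ^ (2 * n) * w * ({x : ∀ j, CMPoint (Γ j) | (fun j => disc (x j)) = D}.ncard : ℝ) := by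
  have h := moment hFA hFB hFC hCOMM hIDX C hm E hFE hE D g M w hM hw hg hW
  rw [emb_image D, finsum_mem_image (emb_inj D).injOn, finsum_mem_univ, Set.ncard_image_of_injective _ (emb_inj D),
    Set.ncard_univ]
  have e : ∀ x : (∀ j, Pt (Γ j) (D j)), tst C g (fun j => (x j).1) =
      (∑ᶠ σ : (MonoidHom.pi fun j => rho (C j) (D j)).range, ∏ j, g j ((σ.1 j (x j)).1.pt : OnePoint (Curve (Γ j)))) /
        Nat.card (MonoidHom.pi fun j => rho (C j) (D j)).range - ∏ j, ∫ y, g j (y : OnePoint (Curve (Γ j))) ∂(m j) := by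
    intro x
    unfold tst
    rw [hORB Qb F n D Γ m C x (fun w => ∏ j, g j ((w j).pt : OnePoint (Curve (Γ j))))]
  simp_rw [e]
  exact h

/-- the test functions for a dense sequence are enough -/
lemma equi_of_dense (C : ∀ j, Model (Γ j) F (m j)) (hm : ∀ j, IsProbabilityMeasure (m j))
    (G : ℕ → ∀ j, C(OnePoint (Curve (Γ j)), ℝ)) (hG : DenseRange G) (x : ℕ → ∀ j, CMPoint (Γ j))
    (h : ∀ l, Tendsto (fun i => tst C (G l) (x i)) atTop (𝓝 0)) : Equidistributed C x (fun _ => F.fixingSubgroup) := by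
  classical
  haveI := hm
  intro f hf hfs
  obtain ⟨e, he⟩ : ∃ e : (∀ j, CMPoint (Γ j)) → ∀ j, Curve (Γ j), e = fun w j => (w j).pt := ⟨_, rfl⟩
  have hei : Function.Injective e := by
    intro w w' h
    funext j
    rw [he] at h
    exact CMPoint.pt_injective (congrFun h j)
  have horb : ∀ i, (orb C F.fixingSubgroup (x i)).Finite := fun i => orb_finite C le_rfl (x i)
  have hne : ∀ i, (orb C F.fixingSubgroup (x i)).Nonempty := fun i => orb_nonempty C _ (x i)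
  have hgoal : ∀ (f : (∀ j, Curve (Γ j)) → ℝ) i, mean (orb C F.fixingSubgroup (x i)) (fun w => f (fun j => (w j).pt)) =
      mean (e '' orb C F.fixingSubgroup (x i)) f := by
    intro f i
    rw [mean_image e hei, he]
  simp_rw [hgoal]
  apply tendsto_mean m (fun i => e '' orb C F.fixingSubgroup (x i)) (fun i => (horb i).image e) _ f hf hfs
  intro g
  simp_rw [← hgoal (fun y => ∏ j, g j (y j))]
  rw [Metric.tendsto_atTop]
  intro ε hε
  obtain ⟨B, hB⟩ : ∃ B : ℝ, B = 2 + ∑ j, ‖g j‖ := ⟨_, rfl⟩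
  have hgB1 : ∀ j, ‖g j‖ ≤ B - 1 := by
    intro j
    rw [hB]
    have := Finset.single_le_sum (f := fun j => ‖g j‖) (fun j _ => norm_nonneg _) (Finset.mem_univ j)
    linarith
  have hB1 : 1 ≤ B := by
    rw [hB]
    have : 0 ≤ ∑ j, ‖g j‖ := Finset.sum_nonneg (fun j _ => norm_nonneg _)
    linarith
  obtain ⟨δ, hδ⟩ : ∃ δ, δ = min 1 (ε / (4 * (n + 1) * B ^ n)) := ⟨_, rfl⟩
  have hδ0 : 0 < δ := by
    rw [hδ]
    have : 0 < ε / (4 * (n + 1) * B ^ n) := by positivity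
    exact lt_min one_pos this
  have hδ1 : δ ≤ 1 := by rw [hδ]; exact min_le_left _ _
  have hδn : (n : ℝ) * (B ^ n * δ) ≤ ε / 4 := by
    have h0 : δ ≤ ε / (4 * (n + 1) * B ^ n) := by rw [hδ]; exact min_le_right _ _
    have h1 : (n : ℝ) * (B ^ n * δ) ≤ (n : ℝ) * (B ^ n * (ε / (4 * (n + 1) * B ^ n))) := by gcongr
    have h2 : (n : ℝ) * (B ^ n * (ε / (4 * (n + 1) * B ^ n))) = (ε / 4) * (n / (n + 1)) := by
      have : B ^ n ≠ 0 := by positivity
      field_simp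
    have h3 : (n : ℝ) / (n + 1) ≤ 1 := by
      rw [div_le_one (by positivity)]
      linarith
    have h4 : (ε / 4) * ((n : ℝ) / (n + 1)) ≤ ε / 4 := mul_le_of_le_one_right (by positivity) h3
    linarith
  obtain ⟨l, hl⟩ : ∃ l, dist g (G l) < δ := by
    obtain ⟨y, hy1, ⟨l, rfl⟩⟩ := Metric.dense_iff.1 hG g δ hδ0
    refine ⟨l, ?_⟩
    rw [dist_comm]
    exact hy1
  have hgl : ∀ j, ‖g j - G l j‖ ≤ δ := by
    intro j
    rw [← dist_eq_norm]
    exact (dist_le_pi_dist g (G l) j).trans hl.le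
  have hglB : ∀ j, ‖G l j‖ ≤ B := by
    intro j
    have h1 : ‖G l j‖ ≤ ‖g j‖ + ‖g j - G l j‖ := by
      have := norm_sub_norm_le (G l j) (g j)
      rw [norm_sub_rev] at this
      linarith
    have := hgl j
    have := hgB1 j
    linarith
  have hgB : ∀ j, ‖g j‖ ≤ B := fun j => by have := hgB1 j; linarith
  have hpt : ∀ y : (∀ j, OnePoint (Curve (Γ j))), |∏ j, g j (y j) - ∏ j, G l j (y j)| ≤ ε / 4 := by
    intro y
    have := abs_prod_sub_prod_le Finset.univ (fun j => g j (y j)) (fun j => G l j (y j)) B δ hB1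
      (fun j => ((g j).norm_coe_le_norm _).trans (hgB j)) (fun j => ((G l j).norm_coe_le_norm _).trans (hglB j))
      (fun j => ((g j - G l j).norm_coe_le_norm (y j)).trans (hgl j))
    rw [Finset.card_univ, Fintype.card_fin] at this
    exact this.trans hδn
  have hIb : ∀ (u : ∀ j, C(OnePoint (Curve (Γ j)), ℝ)) (b : ℝ) j, ‖u j‖ ≤ b → |∫ y, u j (y : OnePoint (Curve (Γ j))) ∂(m j)| ≤ b := by
    intro u b j hu
    have := norm_integral_le_of_norm_le_const (μ := m j) (f := fun y : Curve (Γ j) => u j (y : OnePoint (Curve (Γ j)))) (C := b)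
      (Eventually.of_forall (fun y => ((u j).norm_coe_le_norm _).trans hu))
    simpa using this
  have hint : ∀ (u : ∀ j, C(OnePoint (Curve (Γ j)), ℝ)) j, Integrable (fun y : Curve (Γ j) => u j (y : OnePoint (Curve (Γ j)))) (m j) := by
    intro u j
    apply Integrable.of_bound (C := ‖u j‖) (((u j).continuous.comp OnePoint.continuous_coe).aestronglyMeasurable)
    exact Eventually.of_forall (fun y => (u j).norm_coe_le_norm _)
  have hI : |∏ j, ∫ y, g j (y : OnePoint (Curve (Γ j))) ∂(m j) - ∏ j, ∫ y, G l j (y : OnePoint (Curve (Γ j))) ∂(m j)| ≤ ε / 4 := by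
    have := abs_prod_sub_prod_le Finset.univ (fun j => ∫ y, g j (y : OnePoint (Curve (Γ j))) ∂(m j))
      (fun j => ∫ y, G l j (y : OnePoint (Curve (Γ j))) ∂(m j)) B δ hB1
      (fun j => hIb g B j (hgB j)) (fun j => hIb (G l) B j (hglB j)) (fun j => by
        have h1 := hIb (fun j => g j - G l j) δ j (hgl j)
        have h2 : ∫ y, (g j - G l j) (y : OnePoint (Curve (Γ j))) ∂(m j) =
            ∫ y, g j (y : OnePoint (Curve (Γ j))) ∂(m j) - ∫ y, G l j (y : OnePoint (Curve (Γ j))) ∂(m j) :=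
          integral_sub (hint g j) (hint (G l) j)
        rw [← h2]
        exact h1)
    rw [Finset.card_univ, Fintype.card_fin] at this
    exact this.trans hδn
  obtain ⟨N, hN⟩ := Metric.tendsto_atTop.1 (h l) (ε / 4) (by positivity)
  refine ⟨N, fun i hi => ?_⟩
  have h1 := hN i hi
  rw [Real.dist_eq, sub_zero] at h1
  unfold tst at h1
  have h2 : |mean (orb C F.fixingSubgroup (x i)) (fun w => ∏ j, g j ((w j).pt : OnePoint (Curve (Γ j)))) -
      mean (orb C F.fixingSubgroup (x i)) (fun w => ∏ j, G l j ((w j).pt : OnePoint (Curve (Γ j))))| ≤ ε / 4 := by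
    have e1 : mean (orb C F.fixingSubgroup (x i)) (fun w => ∏ j, g j ((w j).pt : OnePoint (Curve (Γ j)))) -
      mean (orb C F.fixingSubgroup (x i)) (fun w => ∏ j, G l j ((w j).pt : OnePoint (Curve (Γ j)))) =
      mean (orb C F.fixingSubgroup (x i)) (fun w => ∏ j, g j ((w j).pt : OnePoint (Curve (Γ j))) -
        ∏ j, G l j ((w j).pt : OnePoint (Curve (Γ j)))) := by
      have e2 := mean_add (horb i) (fun w => ∏ j, g j ((w j).pt : OnePoint (Curve (Γ j))) -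
        ∏ j, G l j ((w j).pt : OnePoint (Curve (Γ j)))) (fun w => ∏ j, G l j ((w j).pt : OnePoint (Curve (Γ j))))
      simp only [sub_add_cancel] at e2
      rw [e2]
      ring
    rw [e1]
    exact mean_abs_le (horb i) _ _ (by positivity) (fun w _ => hpt (fun j => ((w j).pt : OnePoint (Curve (Γ j)))))
  rw [Real.dist_eq]
  have e3 : mean (orb C F.fixingSubgroup (x i)) (fun w => ∏ j, g j ((w j).pt : OnePoint (Curve (Γ j)))) -
      ∏ j, ∫ y, g j (y : OnePoint (Curve (Γ j))) ∂(m j) =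
      (mean (orb C F.fixingSubgroup (x i)) (fun w => ∏ j, g j ((w j).pt : OnePoint (Curve (Γ j)))) -
        mean (orb C F.fixingSubgroup (x i)) (fun w => ∏ j, G l j ((w j).pt : OnePoint (Curve (Γ j))))) +
      (mean (orb C F.fixingSubgroup (x i)) (fun w => ∏ j, G l j ((w j).pt : OnePoint (Curve (Γ j)))) -
        ∏ j, ∫ y, G l j (y : OnePoint (Curve (Γ j))) ∂(m j)) +
      (-(∏ j, ∫ y, g j (y : OnePoint (Curve (Γ j))) ∂(m j) - ∏ j, ∫ y, G l j (y : OnePoint (Curve (Γ j))) ∂(m j))) := by ring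
  show |mean (orb C F.fixingSubgroup (x i)) (fun w => ∏ j, g j ((w j).pt : OnePoint (Curve (Γ j)))) -
      ∏ j, ∫ y, g j (y : OnePoint (Curve (Γ j))) ∂(m j)| < ε
  rw [e3]
  refine lt_of_le_of_lt (abs_add_three _ _ _) ?_
  rw [abs_neg]
  linarith

end second

/-- almost all special points of products of modular curves have equidistributed Galois orbits -/
theorem main [IsAlgClosure ℚ Qb] (hFA : S_FA) (hFB : S_FB) (hFC : S_FC) (hCOMM : S_COMM) (hIDX : S_IDX) (hORB : S_ORB)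
    (hW : S_W) (hSC : S_SC) (hDG : S_DG) {n : ℕ} (hn : 0 < n)
    (Γ : Fin n → Subgroup SL(2, ℤ)) (F : IntermediateField ℚ Qb) [NumberField F] (m : ∀ j, Measure (Curve (Γ j)))
    (hm : ∀ j, IsHyperbolic (m j)) (C : ∀ j, Model (Γ j) F (m j)) (hC : ∀ j, Twisted (C j)) :
    ∃ Z : Set (∀ j, CMPoint (Γ j)),
      (∀ ε : ℝ, 0 < ε → ∃ R : ℝ, ∀ D : Fin n → ℤ, (∀ j, R ≤ |(D j : ℝ)|) →
        ({x : ∀ j, CMPoint (Γ j) | x ∈ Z ∧ ∀ j, disc (x j) = D j}.ncard : ℝ) ≤
          ε * ({x : ∀ j, CMPoint (Γ j) | ∀ j, disc (x j) = D j}.ncard : ℝ)) ∧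
      ∀ x : ℕ → ∀ j, CMPoint (Γ j), (∀ i, x i ∉ Z) → (∀ j, Tendsto (fun i => |(disc (x i j) : ℝ)|) atTop atTop) →
        Equidistributed C x (fun _ => F.fixingSubgroup) := by
  classical
  have hm' : ∀ j, IsProbabilityMeasure (m j) := fun j => (hm j).1
  obtain ⟨E, hEn, hN0, hFE, hE⟩ := exists_common (index_of_numberField F) C
  have hE' : ∀ j, Rec (C j) E := fun j x σ hσ τ => hE j x σ hσ τ
  haveI : ∀ j, SecondCountableTopology (OnePoint (Curve (Γ j))) := fun j => hSC (Curve (Γ j))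
  haveI : SecondCountableTopology (∀ j, C(OnePoint (Curve (Γ j)), ℝ)) := inferInstance
  obtain ⟨G, hG⟩ : ∃ G : ℕ → ∀ j, C(OnePoint (Curve (Γ j)), ℝ), DenseRange G :=
    ⟨TopologicalSpace.denseSeq _, TopologicalSpace.denseRange_denseSeq _⟩
  have hne : (Finset.univ : Finset (Fin n)).Nonempty := ⟨⟨0, hn⟩, Finset.mem_univ _⟩
  obtain ⟨r, hr⟩ : ∃ r : (Fin n → ℤ) → ℝ, r = fun D => Finset.univ.inf' hne (fun j => |(D j : ℝ)|) := ⟨_, rfl⟩
  have hrle : ∀ (R : ℝ) (D : Fin n → ℤ), R ≤ r D ↔ ∀ j, R ≤ |(D j : ℝ)| := by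
    intro R D
    rw [hr, Finset.le_inf'_iff]
    exact ⟨fun h j => h j (Finset.mem_univ j), fun h j _ => h j⟩
  have hset : ∀ D : Fin n → ℤ, {x : ∀ j, CMPoint (Γ j) | (fun j => disc (x j)) = D} = {x | ∀ j, disc (x j) = D j} := by
    intro D
    ext x
    exact funext_iff
  obtain ⟨Z, hZ1, hZ2⟩ := hDG (∀ j, CMPoint (Γ j)) (Fin n → ℤ) (fun x j => disc (x j)) r (fun l x => tst C (G l) x)
    (fun D => by
      rw [hset]
      exact Set.Finite.pi' (fun j => (C j).finite_disc (D j)))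
    (by
      intro l ε hε
      obtain ⟨M, hM⟩ : ∃ M : ℝ, M = 1 + ∑ j, ‖G l j‖ := ⟨_, rfl⟩
      have hM1 : 1 ≤ M := by
        rw [hM]
        have : 0 ≤ ∑ j, ‖G l j‖ := Finset.sum_nonneg (fun j _ => norm_nonneg _)
        linarith
      have hgM : ∀ j, ‖G l j‖ ≤ M := by
        intro j
        rw [hM]
        have := Finset.single_le_sum (f := fun j => ‖G l j‖) (fun j _ => norm_nonneg _) (Finset.mem_univ j)
        linarith
      obtain ⟨w, hw⟩ : ∃ w, w = ε / (4 ^ n * 2 ^ n * (2 * M) ^ (2 * n)) := ⟨_, rfl⟩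
      have hw0 : 0 < w := by rw [hw]; positivity
      choose B hB using fun j => hW hCOMM Qb F (Γ j) (m j) (hm' j) (C j) (hC j) E hEn hN0 hFE (hE' j) (G l j) w hw0
      refine ⟨∑ j, |B j|, fun D hD => ?_⟩
      have hD' := (hrle _ D).1 hD
      have h1 := moment2 hFA hFB hFC hCOMM hIDX hORB C hm' E hFE hE' D (G l) M w hM1 hw0.le hgM (fun j x χ => hB j (D j) (by
        refine le_trans ?_ (hD' j)
        exact (le_abs_self _).trans (Finset.single_le_sum (f := fun j => |B j|) (fun j _ => abs_nonneg _) (Finset.mem_univ j))) x χ)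
      have h2 : (4 : ℝ) ^ n * 2 ^ n * (2 * M) ^ (2 * n) * w = ε := by
        rw [hw]
        field_simp
      rw [h2] at h1
      exact h1)
  refine ⟨Z, ?_, ?_⟩
  · intro ε hε
    obtain ⟨R, hR⟩ := hZ1 ε hε
    refine ⟨R, fun D hD => ?_⟩
    have := hR D ((hrle R D).2 hD)
    simp only [funext_iff] at this
    exact this
  · intro x hx hxd
    apply equi_of_dense C hm' G hG x
    apply hZ2 x hx
    rw [tendsto_atTop]
    intro R
    have : ∀ᶠ i in atTop, ∀ j, R ≤ |(disc (x i j) : ℝ)| := by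
      rw [eventually_all]
      exact fun j => (hxd j).eventually_ge_atTop R
    filter_upwards [this] with i hi
    exact (hrle R _).2 hi

/-- the same with sequences which avoid the exceptional set eventually, and for strict sequences -/
theorem main2 [IsAlgClosure ℚ Qb] (hFA : S_FA) (hFB : S_FB) (hFC : S_FC) (hCOMM : S_COMM) (hIDX : S_IDX) (hORB : S_ORB)
    (hW : S_W) (hSC : S_SC) (hDG : S_DG) {n : ℕ} (hn : 0 < n)
    (Γ : Fin n → Subgroup SL(2, ℤ)) (F : IntermediateField ℚ Qb) [NumberField F] (m : ∀ j, Measure (Curve (Γ j)))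
    (hm : ∀ j, IsHyperbolic (m j)) (C : ∀ j, Model (Γ j) F (m j)) (hC : ∀ j, Twisted (C j)) :
    ∃ Z : Set (∀ j, CMPoint (Γ j)),
      (∀ ε : ℝ, 0 < ε → ∃ R : ℝ, ∀ D : Fin n → ℤ, (∀ j, R ≤ |(D j : ℝ)|) →
        ({x : ∀ j, CMPoint (Γ j) | x ∈ Z ∧ ∀ j, disc (x j) = D j}.ncard : ℝ) ≤
          ε * ({x : ∀ j, CMPoint (Γ j) | ∀ j, disc (x j) = D j}.ncard : ℝ)) ∧
      (∀ x : ℕ → ∀ j, CMPoint (Γ j), (∀ᶠ i in atTop, x i ∉ Z) → (∀ j, Tendsto (fun i => |(disc (x i j) : ℝ)|) atTop atTop) →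
        Equidistributed C x (fun _ => F.fixingSubgroup)) ∧
      ∀ x : ℕ → ∀ j, CMPoint (Γ j), (∀ᶠ i in atTop, x i ∉ Z) → StrictSeq x →
        Equidistributed C x (fun _ => F.fixingSubgroup) := by
  obtain ⟨Z, h1, h2⟩ := main hFA hFB hFC hCOMM hIDX hORB hW hSC hDG hn Γ F m hm C hC
  have h3 : ∀ x : ℕ → ∀ j, CMPoint (Γ j), (∀ᶠ i in atTop, x i ∉ Z) → (∀ j, Tendsto (fun i => |(disc (x i j) : ℝ)|) atTop atTop) →
        Equidistributed C x (fun _ => F.fixingSubgroup) := by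
    intro x hx hd f hf hfs
    obtain ⟨N, hN⟩ := eventually_atTop.1 hx
    have h4 := h2 (fun i => x (i + N)) (fun i => hN _ (Nat.le_add_left N i))
      (fun j => (hd j).comp (tendsto_add_atTop_nat N)) f hf hfs
    exact (tendsto_add_atTop_iff_nat N).1 h4
  refine ⟨Z, h1, h3, fun x hx hs => h3 x hx (fun j => ?_)⟩
  rw [tendsto_atTop]
  exact fun R => hs.disc_tendsto (fun j => (C j).finite_disc) j R

end Pool.Agent.Run7.h641.AP.Fin'
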