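import Pool.Agent.Run7.h762.EQ.J5

/-!
# Almost all special points of products of modular curves: the pieces

The definitions `Curve`, `CMPoint`, `disc`, `quadField`, `Model`, `mean`, `orb`, `Equidistributed` are those of helper762
(`Pool/Agent/Run7/h762/EQ`, files A, E, G, J5). Every piece is a closed proposition `S_XXX` with its proof in the
comment. Hand it in as `theorem t_XXX : S_XXX` in `Pool/Agent/Run7/h641/AP/<PIECE>.lean`, importing this file, in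
the namespace `Pool.Agent.Run7.h641.AP.<PIECE>`.
-/

set_option autoImplicit false

open MeasureTheory Filter Topology
open scoped UpperHalfPlane MatrixGroups ENNReal
open Pool.Agent.Run7.h762.EQ

namespace Pool.Agent.Run7.h641.AP

/-- PIECE FA. Finite Fourier analysis. Proof. `Mathlib/Analysis/Fourier/FiniteAbelian` for `Additive A`
(`AddChar.sum_apply_eq_ite`: `∑ ψ, ψ a = |A|` for `a = 0`, and `0` otherwise; an additive character `ψ` of `Additive A` gives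
`χ : A →* ℂ`). Let `ĝ(χ) = ∑ t, g t conj (χ t)`, `R c = ∑ t, g (c t) g t`. Then `|A| R c = ∑_χ |ĝ(χ)|² χ(c)`
(expand and use orthogonality), `∑ c, R c conj (χ c) = |ĝ(χ)|²`, so `|A| ∑ c, R(c)² = ∑_χ |ĝ(χ)|⁴ ≤ (w |A|)² ∑_χ |ĝ(χ)|² =
(w |A|)² |A| R 1`. -/
def S_FA : Prop := ∀ (A : Type) [CommGroup A] [Fintype A] (g : A → ℝ) (w : ℝ), 0 ≤ w →
  (∀ χ : A →* ℂ, ‖∑ a, χ a * (g a : ℂ)‖ ≤ w * Fintype.card A) →
  ∑ c, (∑ t, g (c * t) * g t) ^ 2 ≤ (w * Fintype.card A) ^ 2 * ∑ t, g t ^ 2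

/-- PIECE FB. One coordinate. Proof. Let `R_x(c) = ∑_{t ∈ A} g (c t x) g (t x)` for `c ∈ A`. Replacing `x` by `t x` and
averaging over `t ∈ A`: `|A| ∑_x g (φ h x) g x = ∑_x R_x (φ h)`. `∑_{h} |R_x (φ h)| = (|H| / |φ H|) ∑_{c ∈ φ H} |R_x c| ≤
(|H| / |φ H|) ∑_{c ∈ A} |R_x c| ≤ (κ |H| / |A|) √(|A| ∑_c R_x(c)²)` and `∑_c R_x(c)² ≤ (w |A|)² |A| M²` by `S_FA` for the
function `t ↦ g (t x)` on the commutative group `A`. So the left side is at most
`(1/|A|) ∑_x (κ |H| / |A|) √(|A| w² |A|² |A| M²) = κ w M |H| |S|`. -/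
def S_FB : Prop := S_FA → ∀ (S H : Type) [Fintype S] [Group H] [Fintype H] (φ : H →* Equiv.Perm S)
  (A : Subgroup (Equiv.Perm S)) (κ M w : ℝ) (g : S → ℝ), 0 ≤ w → 0 ≤ κ → 0 ≤ M →
  (∀ a ∈ A, ∀ b ∈ A, a * b = b * a) → (∀ h, φ h ∈ A) →
  ((Nat.card A : ℝ) ≤ κ * Nat.card φ.range) → (∀ x, |g x| ≤ M) →
  (∀ x, ∀ χ : A →* ℂ, ‖∑ᶠ a : A, χ a * (g (a.1 x) : ℂ)‖ ≤ w * Nat.card A) →
  ∑ h : H, |∑ x, g (φ h x) * g x| ≤ κ * w * M * Fintype.card H * Fintype.card S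

/-- PIECE FC. Products. Proof. (1) For a nonempty set `J` of coordinates and `u j = g j - c j` (`|u j| ≤ 2 M`):
`∑_x (∑_h ∏_{j ∈ J} u_j (ρ_j h x_j))² = ∑_{h, h'} ∏_{j ∈ J} (∑_{x ∈ S_j} u_j (ρ_j h x) u_j (ρ_j h' x)) ∏_{j ∉ J} |S_j|
= |H| ∑_h ∏_{j ∈ J} (∑_{x ∈ S_j} u_j (ρ_j h x) u_j x) ∏_{j ∉ J} |S_j|` (`x ↦ ρ_j(h')⁻¹ x`, `h ↦ h h'`), and this is at most
`|H|² (∏ |S_j|) κ w (2M) ((2M)²)^(|J|-1)`: all factors but one are at most `(2 M)² |S_j|`, and the hypothesis `hB` for the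
remaining one. (2) `∏ g_j - ∏ c_j = ∑_{J ≠ ∅} ∏_{j ∉ J} c_j ∏_{j ∈ J} u_j` (`Finset.prod_add`), by Cauchy-Schwarz
`∑_x (∑_h (∏ g_j - ∏ c_j))² ≤ 2^n ∑_J … ≤ 2^n 2^n |H|² (∏ |S_j|) κ w (2M)^(2n)`. (3) `∑_{σ ∈ G} f(σ x) =
(1/|H|) ∑_{σ ∈ G} ∑_{h ∈ H} f (h σ x)`, so by Cauchy-Schwarz and the bijections `x ↦ σ x`:
`∑_x (∑_σ (f (σ x) - c))² ≤ (|G|/|H|)² ∑_x (∑_h (f (h x) - c))²`. Here `ρ j h` for `h ∈ H` is `ρ j (h : G)`. -/
def S_FC : Prop := ∀ (n : ℕ) (S : Fin n → Type) [∀ j, Fintype (S j)] (G : Type) [Group G] [Fintype G]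
  (H : Subgroup G) [Fintype H] (ρ : ∀ j, G →* Equiv.Perm (S j)) (g : ∀ j, S j → ℝ) (c : Fin n → ℝ)
  (κ M w : ℝ), 0 ≤ w → 1 ≤ κ → 1 ≤ M → (∀ j x, |g j x| ≤ M) → (∀ j, |c j| ≤ M) →
  (∀ j, ∑ h : H, |∑ x, (g j (ρ j h x) - c j) * (g j x - c j)| ≤
    κ * w * (2 * M) * Fintype.card H * Fintype.card (S j)) →
  ∑ x : (∀ j, S j), ((∑ σ : G, ∏ j, g j (ρ j σ (x j))) / Fintype.card G - ∏ j, c j) ^ 2 ≤
    4 ^ n * κ * (2 * M) ^ (2 * n) * w * Fintype.card (∀ j, S j)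

section galois

variable {Qb : Type} [Field Qb] [Algebra ℚ Qb] {F : IntermediateField ℚ Qb}

/-- the CM points of discriminant `D` -/
abbrev Pt (Γ : Subgroup SL(2, ℤ)) (D : ℤ) : Type := {x : CMPoint Γ // disc x = D}

/-- the action of the Galois group on the CM points of discriminant `D` -/
noncomputable def rho {Γ : Subgroup SL(2, ℤ)} {m : Measure (Curve Γ)} (C : Model Γ F m) (D : ℤ) :
    F.fixingSubgroup →* Equiv.Perm (Pt Γ D) where
  toFun σ :=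
    { toFun := fun x => ⟨C.act σ x.1, by rw [C.disc_act _ σ.2]; exact x.2⟩
      invFun := fun x => ⟨C.act (σ : Qb ≃ₐ[ℚ] Qb)⁻¹ x.1, by
        rw [C.disc_act _ (F.fixingSubgroup.inv_mem σ.2)]; exact x.2⟩
      left_inv := fun x => Subtype.ext (by
        simp only
        rw [← C.act_mul _ (F.fixingSubgroup.inv_mem σ.2) _ σ.2, inv_mul_cancel, C.act_one])
      right_inv := fun x => Subtype.ext (by
        simp only
        rw [← C.act_mul _ σ.2 _ (F.fixingSubgroup.inv_mem σ.2), mul_inv_cancel, C.act_one]) }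
  map_one' := Equiv.ext fun x => Subtype.ext (C.act_one _)
  map_mul' σ τ := Equiv.ext fun x => Subtype.ext (C.act_mul _ σ.2 _ τ.2 _)

/-- the image of the subgroup `U` -/
noncomputable def img {Γ : Subgroup SL(2, ℤ)} {m : Measure (Curve Γ)} (C : Model Γ F m) (D : ℤ)
    (U : Subgroup (Qb ≃ₐ[ℚ] Qb)) : Subgroup (Equiv.Perm (Pt Γ D)) :=
  (U.subgroupOf F.fixingSubgroup).map (rho C D)

/-- the group which fixes `E` and the quadratic field of discriminant `D` -/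
def EK (E : Subgroup (Qb ≃ₐ[ℚ] Qb)) (D : ℤ) : Subgroup (Qb ≃ₐ[ℚ] Qb) :=
  E ⊓ (quadField Qb D).fixingSubgroup

/-- the reciprocity law for `E` (a field of `Model` gives such an `E`) -/
def Rec {Γ : Subgroup SL(2, ℤ)} {m : Measure (Curve Γ)} (C : Model Γ F m)
    (E : Subgroup (Qb ≃ₐ[ℚ] Qb)) : Prop :=
  ∀ x : CMPoint Γ, ∀ σ ∈ E ⊓ (quadField Qb (disc x)).fixingSubgroup, ∀ τ : Qb ≃ₐ[ℚ] Qb,
      (τ ∈ (quadField Qb (disc x)).fixingSubgroup → C.act (τ * σ * τ⁻¹) x = C.act σ x) ∧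
      (τ ∉ (quadField Qb (disc x)).fixingSubgroup → C.act (τ * σ * τ⁻¹) x = C.act σ⁻¹ x)

/-- Weyl sums over CM points, twisted by characters (published: Duke 1988, Duke, Friedlander and Iwaniec, Zhang
2005, Harcos and Michel 2006, Michel and Venkatesh 2010): `E ⊓ Gal(Qb/K)`, `K` the CM field of `x`, acts on its
orbit `O` of `x` through an abelian group; let `χ` be a nontrivial character of this group, as a function on the
orbit, `χ (σ x) = χ(σ)`. Then `|∑_{y ∈ O} χ(y) f(y)| ≤ ε |O|`, if the discriminant of `x` is large, uniformly in `χ`. -/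
def Twisted {Γ : Subgroup SL(2, ℤ)} {m : Measure (Curve Γ)} (C : Model Γ F m) : Prop :=
  ∀ E : Subgroup (Qb ≃ₐ[ℚ] Qb), E.Normal → E.index ≠ 0 → E ≤ F.fixingSubgroup → Rec C E →
    ∀ f : Curve Γ → ℝ, Continuous f → HasCompactSupport f → ∀ ε : ℝ, 0 < ε → ∃ B : ℝ,
    ∀ x : CMPoint Γ, B ≤ |(disc x : ℝ)| → ∀ χ : CMPoint Γ → ℂ,
      (∀ σ ∈ EK E (disc x), ∀ τ ∈ EK E (disc x), χ (C.act (σ * τ) x) = χ (C.act σ x) * χ (C.act τ x)) →
      χ x = 1 → (∃ σ ∈ EK E (disc x), χ (C.act σ x) ≠ 1) →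
      ‖∑ᶠ y ∈ {y | ∃ σ ∈ EK E (disc x), C.act σ x = y}, χ y * (f y.pt : ℂ)‖ ≤
        ε * ({y | ∃ σ ∈ EK E (disc x), C.act σ x = y}.ncard : ℝ)

/-- PIECE COMM. Proof: `Pool.Agent.Run7.h762.EQ.Sys.comm` (file A) in this situation: `σ, τ ∈ E ⊓ K`: by the
reciprocity law at the point `act τ x`, `act (τ σ τ⁻¹) (act τ x) = act σ (act τ x)`, so `act (τ σ) x = act (σ τ) x`. -/
def S_COMM : Prop := ∀ (Qb : Type) [Field Qb] [Algebra ℚ Qb] (F : IntermediateField ℚ Qb)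
  (Γ : Subgroup SL(2, ℤ)) (m : Measure (Curve Γ)) (C : Model Γ F m) (E : Subgroup (Qb ≃ₐ[ℚ] Qb)),
  E ≤ F.fixingSubgroup → Rec C E → ∀ D : ℤ, ∀ a ∈ img C D (EK E D), ∀ b ∈ img C D (EK E D), a * b = b * a

/-- PIECE IDX. Proof: `⨅ l, Gal(Qb/K_l)` has index at most `2^n` (`fixSqrt_index` in file E: each has index at most `2`;
`Subgroup.index_iInf_le`), so the relative index of `E ⊓ ⨅` in `EK E (D j)` is at most `2^n` (and not `0`), the
image of a subgroup under a homomorphism has at most this index. -/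
def S_IDX : Prop := ∀ (Qb : Type) [Field Qb] [Algebra ℚ Qb] (F : IntermediateField ℚ Qb)
  (n : ℕ) (D : Fin n → ℤ) (j : Fin n) (Γ : Subgroup SL(2, ℤ)) (m : Measure (Curve Γ)) (C : Model Γ F m)
  (E : Subgroup (Qb ≃ₐ[ℚ] Qb)), E ≤ F.fixingSubgroup →
  Nat.card (img C (D j) (EK E (D j))) ≤ 2 ^ n * Nat.card (img C (D j) (⨅ l, EK E (D l)))

/-- PIECE W. The Weyl sums in the form of `S_FB`. Proof. Let `A = img C D (EK E D)`, a finite commutative
group (`S_COMM`; `Pt Γ D` is finite by `C.finite_disc`), `x` a point of discriminant `D`, `O` the orbit of `x` under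
`EK E D`: `a ↦ a x` maps `A` onto `O` with fibres of the same size. If `χ = 1`, then the sum is `|A|` times
`mean O g - ∫ g`, use `Model.duke_ext` (file G) with `M = EK E D`, whose index is at most `2 * E.index`, which is less than
`|D| ^ η` for large `|D|`. If `χ ≠ 1` is not trivial on the stabiliser of `x` in `A`, the sum is `0`. Otherwise
`χ` is a function on `O`, not constant, `∑ a, χ a = 0`; let `g = g(∞) + f + r` on the curve with `f` continuous with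
compact support and `|r| ≤ ε/3` (`exists_compact_approx`, file D): the constants contribute `0`, `f` at most `ε/3` by
`Twisted`, `r` at most `ε/3`. -/
def S_W : Prop := S_COMM → ∀ (Qb : Type) [Field Qb] [Algebra ℚ Qb] (F : IntermediateField ℚ Qb)
  (Γ : Subgroup SL(2, ℤ)) (m : Measure (Curve Γ)), IsProbabilityMeasure m → ∀ (C : Model Γ F m),
  Twisted C → ∀ (E : Subgroup (Qb ≃ₐ[ℚ] Qb)), E.Normal → E.index ≠ 0 → E ≤ F.fixingSubgroup → Rec C E →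
  ∀ g : C(OnePoint (Curve Γ), ℝ), ∀ ε : ℝ, 0 < ε → ∃ B : ℝ, ∀ D : ℤ, B ≤ |(D : ℝ)| →
    ∀ x : Pt Γ D, ∀ χ : img C D (EK E D) →* ℂ,
      ‖∑ᶠ a : img C D (EK E D), χ a * ((g ((a.1 x).1.pt : OnePoint (Curve Γ)) -
        ∫ y, g (y : OnePoint (Curve Γ)) ∂m : ℝ) : ℂ)‖ ≤ ε * Nat.card (img C D (EK E D))

/-- PIECE ORB. The mean over the Galois orbit is the mean over the finite group through which the Galois group
acts. Proof: `σ ↦ σ x` maps this group `G` onto the orbit (identified with a subset of `∏ Pt (Γ j) (D j)`), the fibres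
are the cosets of the stabiliser. -/
def S_ORB : Prop := ∀ (Qb : Type) [Field Qb] [Algebra ℚ Qb] (F : IntermediateField ℚ Qb)
  (n : ℕ) (D : Fin n → ℤ) (Γ : Fin n → Subgroup SL(2, ℤ)) (m : ∀ j, Measure (Curve (Γ j)))
  (C : ∀ j, Model (Γ j) F (m j)) (x : ∀ j, Pt (Γ j) (D j)) (f : (∀ j, CMPoint (Γ j)) → ℝ),
  mean (orb C F.fixingSubgroup (fun j => (x j).1)) f =
    (∑ᶠ σ : (MonoidHom.pi fun j => rho (C j) (D j)).range, f fun j => (σ.1 j (x j)).1) /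
      Nat.card (MonoidHom.pi fun j => rho (C j) (D j)).range

/-- PIECE SC. Proof: the open sets of a countable basis of `Curve Γ`, and the complements in `OnePoint` of the sets of
a compact exhaustion (`CompactExhaustion`; the space is locally compact and second countable, so σ-compact) form a
countable basis of `OnePoint (Curve Γ)`. -/
def S_SC : Prop := ∀ (Y : Type) [TopologicalSpace Y] [T2Space Y] [LocallyCompactSpace Y]
  [SecondCountableTopology Y], SecondCountableTopology (OnePoint Y)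

end galois

/-- PIECE DG. The exceptional set, from countably many tests. Proof. Choose `R_0 ≤ R_1 ≤ …`, `R_k → ∞`, such that
`∑_{x ∈ T D} v l x ^ 2 ≤ 4^(-k) |T D|` for all `l ≤ k` if `R_k ≤ r D`. Let `K(D)` be the largest `k` with `R_k ≤ r D` (and `0` if
there is none), `Z = {x | ∃ l ≤ K(d x), 2^(-K(d x)) < (v l x)^2}`. If `R_k ≤ r D` then by Chebyshev's inequality the
proportion of `Z` in `T D` is at most `∑_{l ≤ K} 4^(-K) 2^K = (K + 1) 2^(-K)`, `K = K(D) ≥ k`. If `x_i ∉ Z`, `r (d x_i) → ∞`, then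
`K(d x_i) → ∞` and `(v l x_i)^2 ≤ 2^(-K(d x_i)) → 0`. -/
def S_DG : Prop := ∀ (X Δ : Type) (d : X → Δ) (r : Δ → ℝ) (v : ℕ → X → ℝ), (∀ D, {x | d x = D}.Finite) →
  (∀ l, ∀ ε : ℝ, 0 < ε → ∃ R : ℝ, ∀ D, R ≤ r D →
    ∑ᶠ x ∈ {x | d x = D}, v l x ^ 2 ≤ ε * ({x | d x = D}.ncard : ℝ)) →
  ∃ Z : Set X, (∀ ε : ℝ, 0 < ε → ∃ R : ℝ, ∀ D, R ≤ r D →
      (({x | x ∈ Z ∧ d x = D}.ncard : ℝ) ≤ ε * ({x | d x = D}.ncard : ℝ))) ∧
    ∀ x : ℕ → X, (∀ i, x i ∉ Z) → Tendsto (fun i => r (d (x i))) atTop atTop →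
      ∀ l, Tendsto (fun i => v l (x i)) atTop (𝓝 0)

end Pool.Agent.Run7.h641.AP
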